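import Mathlib
import Pool.Agent.H68.GeomHyp

/-!
Module Clu: replacing points by clusters (blow-up argument).

Paper proof (complete). Choose an injective `δ : Fin s → Pt d` (for instance `a • u` for a unit vector
`u`; `d ≥ 1`) and put `v_ε (i, a) = p i + ε • δ a`. For `e : Finset (ι × Fin s)` with `e.card = d + 1`
and `Q = e.image Prod.fst ∈ 𝒬` the projection `Prod.fst` is injective on `e` (`Q.card = d + 1`), so `e`
has exactly one vertex `(i, a)` for each `i ∈ Q`. Call such `e` edges.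
Counting facts: (C1) a set of at most `N` members `Q` of `𝒬` carries at most `N * s^(d+1)` edges;
(C2) if moreover one vertex `(i0, a)` with `i0 ∈ Q` is prescribed, at most `N * s^d` edges.
Suppose that no `ε > 0` works: for every `k` (with `ε_k = 1/(k+1)`) there is a point `x_k` lying in
`convexHull (v_{ε_k} '' e)` for more than `B = N * s^(d+1) + D * s^d` edges `e`. There are finitely many
sets of edges, so along a subsequence the set of these edges is a constant set `H`, `B < H.card`; the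
`x_k` are bounded, so along a further subsequence `x_k → x`. All the limits below are along further
subsequences; it is convenient to use an ultrafilter on `ℕ` finer than `Filter.atTop` (`Filter.hyperfilter`)
and never pass to subsequences: bounded sequences converge along it.
(a) `x` is in `convexHull (p '' Q(e))` for every `e ∈ H` (module Semi, `exists_close`, same argument).
If `x` is no `p i`, `h1` says that the sets `Q(e)`, `e ∈ H`, are at most `N`, and by (C1)
`H.card ≤ N * s^(d+1)`, a contradiction.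
(b) Let `x = p i0`. By `h2` (and (a)) `i0 ∈ Q(e)` for all `e ∈ H`, so `e` contains exactly one vertex
`(i0, a)`. Let `H_a` be the set of `e ∈ H` with this `a`. Let `w_{k,a} = x_k - v_{ε_k}(i0, a)`.
If `w_{k,a} = 0` for (ultra)many `k`, then this holds for this `a` only (`ε_k ≠ 0`, `δ` injective), and
`H_a.card ≤ D * s^d` by `h3`. Otherwise `w_{k,a} ≠ 0` and the unit vectors `w_{k,a} / |w_{k,a}|` converge
to a unit vector `u`. Let `e ∈ H_a`, `x_k = ∑_{v ∈ e} y_{k,v} v_k`, then
`w_{k,a} = ∑_{v ∈ e, v ≠ (i0,a)} y_{k,v} (v_k - v_{ε_k}(i0,a))`. The sets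
`C_k = convexHull {v_k - v_{ε_k}(i0, a) | v ∈ e, v ≠ (i0, a)}` converge to
`C = convexHull {p i - p i0 | i ∈ Q(e), i ≠ i0}`, which is compact and does not contain `0` by `h2`; so
there is `r > 0` with `r ≤ |c|` for all `c ∈ C_k`, `k` large, and
`c_k = ∑_{v ≠ (i0,a)} y_{k,v} / |w_{k,a}| ≤ 1 / r`. In the limit `u = ∑_{i ∈ Q(e), i ≠ i0} c_i (p i - p i0)`
with `c_i ≥ 0`. Hence for small `τ > 0` the point `p i0 + τ u` is in `convexHull (p '' Q(e))`. As there are
finitely many sets `Q(e)` and `p` has finite range, one `τ > 0` serves for all `e ∈ H_a`, with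
`p i0 + τ u` different from all `p i`. By `h1` the sets `Q(e)`, `e ∈ H_a`, are at most `N`, and by (C2)
`H_a.card ≤ N * s^d`. Summing over the `s` values of `a`: `H.card ≤ s * (N * s^d) + D * s^d = B`, a
contradiction.
-/

namespace Pool.Agent.H74.GB

open Pool.Agent.H68

open Filter Topology

private theorem Clu_weights {d : ℕ} {κ : Type} (v : κ → Pt d) (e : Finset κ) (x : Pt d)
    (hx : x ∈ convexHull ℝ (v '' (e : Set κ))) :
    ∃ w : κ → ℝ, (∀ i ∈ e, 0 ≤ w i) ∧ ∑ i ∈ e, w i = 1 ∧ ∑ i ∈ e, w i • v i = x := by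
  classical
  have hsub : convexHull ℝ (v '' (e : Set κ)) ⊆
      {x | ∃ w : κ → ℝ, (∀ i ∈ e, 0 ≤ w i) ∧ ∑ i ∈ e, w i = 1 ∧ ∑ i ∈ e, w i • v i = x} := by
    refine convexHull_min ?_ ?_
    · rintro _ ⟨i, hi, rfl⟩
      have hi' : i ∈ e := hi
      refine ⟨fun j => if j = i then 1 else 0, ?_, ?_, ?_⟩
      · intro j _
        dsimp only
        split_ifs <;> norm_num
      · rw [Finset.sum_ite_eq' e i]
        simp [hi']
      · simp only [ite_smul, one_smul, zero_smul]
        rw [Finset.sum_ite_eq' e i]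
        simp [hi']
    · rintro x ⟨w, h0, h1, rfl⟩ y ⟨w', h0', h1', rfl⟩ a b ha hb hab
      refine ⟨fun i => a * w i + b * w' i, ?_, ?_, ?_⟩
      · intro i hi
        exact add_nonneg (mul_nonneg ha (h0 i hi)) (mul_nonneg hb (h0' i hi))
      · rw [Finset.sum_add_distrib, ← Finset.mul_sum, ← Finset.mul_sum, h1, h1']
        simpa using hab
      · rw [Finset.smul_sum, Finset.smul_sum, ← Finset.sum_add_distrib]
        refine Finset.sum_congr rfl fun i _ => ?_
        rw [add_smul, mul_smul, mul_smul]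
  exact hsub hx

private theorem Clu_lim {κ : Type} (U : Ultrafilter ℕ) (e : Finset κ) (w : ℕ → κ → ℝ)
    (h0 : ∀ᶠ k in (U : Filter ℕ), ∀ i ∈ e, 0 ≤ w k i)
    (h1 : ∀ᶠ k in (U : Filter ℕ), ∑ i ∈ e, w k i = 1) :
    ∃ wl : κ → ℝ, (∀ i ∈ e, 0 ≤ wl i) ∧ ∑ i ∈ e, wl i = 1 ∧
      ∀ i ∈ e, Tendsto (fun k => w k i) (U : Filter ℕ) (𝓝 (wl i)) := by
  classical
  have hex : ∀ i : κ, ∃ a : ℝ, i ∈ e →
      (0 ≤ a ∧ Tendsto (fun k => w k i) (U : Filter ℕ) (𝓝 a)) := by
    intro i
    by_cases hi : i ∈ e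
    · have hle : ((U.map (fun k => w k i) : Ultrafilter ℝ) : Filter ℝ) ≤ 𝓟 (Set.Icc (0 : ℝ) 1) := by
        rw [le_principal_iff]
        have : ∀ᶠ k in (U : Filter ℕ), w k i ∈ Set.Icc (0 : ℝ) 1 := by
          filter_upwards [h0, h1] with k hk0 hk1
          refine ⟨hk0 i hi, ?_⟩
          rw [← hk1]
          exact Finset.single_le_sum (f := fun i => w k i) hk0 hi
        exact this
      obtain ⟨a, ha, hle'⟩ := (isCompact_Icc (a := (0 : ℝ)) (b := 1)).ultrafilter_le_nhds _ hle
      exact ⟨a, fun _ => ⟨ha.1, hle'⟩⟩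
    · exact ⟨0, fun h => absurd h hi⟩
  choose wl hwl using hex
  refine ⟨wl, fun i hi => (hwl i hi).1, ?_, fun i hi => (hwl i hi).2⟩
  have hsum : Tendsto (fun k => ∑ i ∈ e, w k i) (U : Filter ℕ) (𝓝 (∑ i ∈ e, wl i)) :=
    tendsto_finsetSum _ fun i hi => (hwl i hi).2
  have hone : Tendsto (fun k => ∑ i ∈ e, w k i) (U : Filter ℕ) (𝓝 1) := by
    refine Tendsto.congr' (f₁ := fun _ => (1 : ℝ)) ?_ tendsto_const_nhds
    filter_upwards [h1] with k hk
    exact hk.symm
  exact tendsto_nhds_unique hsum hone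

private theorem Clu_conv {d : ℕ} {κ : Type} (U : Ultrafilter ℕ) (e : Finset κ)
    (v : ℕ → κ → Pt d) (vl : κ → Pt d)
    (hv : ∀ i, Tendsto (fun k => v k i) (U : Filter ℕ) (𝓝 (vl i))) (x : ℕ → Pt d)
    (hx : ∀ᶠ k in (U : Filter ℕ), x k ∈ convexHull ℝ (v k '' (e : Set κ))) :
    ∃ y ∈ convexHull ℝ (vl '' (e : Set κ)), Tendsto x (U : Filter ℕ) (𝓝 y) := by
  classical
  have hex : ∀ k, ∃ w : κ → ℝ, x k ∈ convexHull ℝ (v k '' (e : Set κ)) →
      ((∀ i ∈ e, 0 ≤ w i) ∧ ∑ i ∈ e, w i = 1 ∧ ∑ i ∈ e, w i • v k i = x k) := by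
    intro k
    by_cases hk : x k ∈ convexHull ℝ (v k '' (e : Set κ))
    · obtain ⟨w, hw⟩ := Clu_weights (v k) e (x k) hk
      exact ⟨w, fun _ => hw⟩
    · exact ⟨0, fun h => absurd h hk⟩
  choose w hw using hex
  obtain ⟨wl, h0, h1, hlim⟩ := Clu_lim U e w
    (by filter_upwards [hx] with k hk using (hw k hk).1)
    (by filter_upwards [hx] with k hk using (hw k hk).2.1)
  refine ⟨∑ i ∈ e, wl i • vl i, ?_, ?_⟩
  · exact (convex_convexHull ℝ _).sum_mem h0 h1
      fun i hi => subset_convexHull ℝ _ (Set.mem_image_of_mem vl hi)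
  · have hsum : Tendsto (fun k => ∑ i ∈ e, w k i • v k i) (U : Filter ℕ)
        (𝓝 (∑ i ∈ e, wl i • vl i)) :=
      tendsto_finsetSum _ fun i hi => (hlim i hi).smul (hv i)
    refine Tendsto.congr' ?_ hsum
    filter_upwards [hx] with k hk
    exact (hw k hk).2.2

private theorem Clu_dir {d : ℕ} {κ : Type} [DecidableEq κ] (U : Ultrafilter ℕ) (e : Finset κ)
    (o : κ) (ho : o ∈ e) (v : ℕ → κ → Pt d) (vl : κ → Pt d)
    (hv : ∀ i, Tendsto (fun k => v k i) (U : Filter ℕ) (𝓝 (vl i))) (x : ℕ → Pt d)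
    (hx : ∀ᶠ k in (U : Filter ℕ), x k ∈ convexHull ℝ (v k '' (e : Set κ)))
    (hne : ∀ᶠ k in (U : Filter ℕ), x k ≠ v k o)
    (hvl : vl o ∉ convexHull ℝ (vl '' ((e.erase o : Finset κ) : Set κ))) :
    ∃ c ∈ convexHull ℝ (vl '' ((e.erase o : Finset κ) : Set κ)),
      Tendsto (fun k => ‖x k - v k o‖⁻¹ • (x k - v k o)) (U : Filter ℕ)
        (𝓝 (‖c - vl o‖⁻¹ • (c - vl o))) := by
  have hex : ∀ k, ∃ z : Pt d, (x k ∈ convexHull ℝ (v k '' (e : Set κ)) ∧ x k ≠ v k o) →
      (z ∈ convexHull ℝ (v k '' ((e.erase o : Finset κ) : Set κ)) ∧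
        ∃ t : ℝ, 0 < t ∧ x k - v k o = t • (z - v k o)) := by
    intro k
    by_cases hk : x k ∈ convexHull ℝ (v k '' (e : Set κ)) ∧ x k ≠ v k o
    · obtain ⟨w, h0, h1, hsum⟩ := Clu_weights (v k) e (x k) hk.1
      have hsplit1 : w o + ∑ i ∈ e.erase o, w i = 1 := by
        rw [Finset.add_sum_erase e w ho, h1]
      have hsplit2 : w o • v k o + ∑ i ∈ e.erase o, w i • v k i = x k := by
        rw [Finset.add_sum_erase e (fun i => w i • v k i) ho, hsum]
      set t : ℝ := ∑ i ∈ e.erase o, w i with ht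
      have ht0 : 0 ≤ t := Finset.sum_nonneg fun i hi => h0 i (Finset.mem_of_mem_erase hi)
      have htne : t ≠ 0 := by
        intro h
        have hz : ∀ i ∈ e.erase o, w i = 0 :=
          (Finset.sum_eq_zero_iff_of_nonneg fun i hi => h0 i (Finset.mem_of_mem_erase hi)).1 h
        have hs0 : ∑ i ∈ e.erase o, w i • v k i = 0 :=
          Finset.sum_eq_zero fun i hi => by rw [hz i hi, zero_smul]
        have hwo : w o = 1 := by rw [h] at hsplit1; simpa using hsplit1
        apply hk.2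
        rw [← hsplit2, hs0, hwo, one_smul, add_zero]
      have htpos : 0 < t := lt_of_le_of_ne ht0 (Ne.symm htne)
      refine ⟨∑ i ∈ e.erase o, (t⁻¹ * w i) • v k i, fun _ => ⟨?_, t, htpos, ?_⟩⟩
      · refine (convex_convexHull ℝ _).sum_mem ?_ ?_ ?_
        · intro i hi
          exact mul_nonneg (inv_nonneg.2 ht0) (h0 i (Finset.mem_of_mem_erase hi))
        · rw [← Finset.mul_sum, ← ht, inv_mul_cancel₀ htne]
        · intro i hi
          exact subset_convexHull ℝ _ (Set.mem_image_of_mem (v k) hi)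
      · have h2 : t • ∑ i ∈ e.erase o, (t⁻¹ * w i) • v k i = ∑ i ∈ e.erase o, w i • v k i := by
          rw [Finset.smul_sum]
          refine Finset.sum_congr rfl fun i _ => ?_
          rw [smul_smul, ← mul_assoc, mul_inv_cancel₀ htne, one_mul]
        rw [smul_sub, h2, ← hsplit2]
        have h3 : w o = 1 - t := by linarith
        rw [h3, sub_smul, one_smul]
        abel
    · exact ⟨0, fun h => absurd h hk⟩
  choose z hz using hex
  have hzmem : ∀ᶠ k in (U : Filter ℕ), z k ∈ convexHull ℝ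
      (v k '' ((e.erase o : Finset κ) : Set κ)) := by
    filter_upwards [hx, hne] with k h1 h2 using (hz k ⟨h1, h2⟩).1
  obtain ⟨c, hc, hlim⟩ := Clu_conv U (e.erase o) v vl hv z hzmem
  refine ⟨c, hc, ?_⟩
  have hcne : c - vl o ≠ 0 := by
    intro h
    rw [sub_eq_zero] at h
    exact hvl (h ▸ hc)
  have hlim2 : Tendsto (fun k => z k - v k o) (U : Filter ℕ) (𝓝 (c - vl o)) := hlim.sub (hv o)
  have hlim3 : Tendsto (fun k => ‖z k - v k o‖⁻¹ • (z k - v k o)) (U : Filter ℕ)
      (𝓝 (‖c - vl o‖⁻¹ • (c - vl o))) :=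
    (hlim2.norm.inv₀ (norm_ne_zero_iff.2 hcne)).smul hlim2
  refine Tendsto.congr' ?_ hlim3
  filter_upwards [hx, hne] with k h1 h2
  obtain ⟨t, ht, heq⟩ := (hz k ⟨h1, h2⟩).2
  rw [heq, norm_smul, Real.norm_of_nonneg ht.le, mul_inv, smul_smul]
  congr 1
  rw [mul_comm (t⁻¹), mul_assoc, inv_mul_cancel₀ ht.ne', mul_one]

private theorem Clu_c1 {s : ℕ} {ι : Type} [Fintype ι] [DecidableEq ι] (Q : Finset ι)
    (H : Finset (Finset (ι × Fin s))) (hH : ∀ e ∈ H, e.card = Q.card ∧ e.image Prod.fst = Q) :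
    H.card ≤ s ^ Q.card := by
  classical
  have hsub : H ⊆ (Finset.univ : Finset (Q → Fin s)).image
      (fun g => Q.attach.image (fun i : Q => ((i : ι), g i))) := by
    intro e he
    obtain ⟨hc, hi⟩ := hH e he
    have hinj : Set.InjOn Prod.fst (e : Set (ι × Fin s)) := by
      rw [← Finset.card_image_iff, hi, hc]
    have hex : ∀ i : Q, ∃ a : Fin s, ((i : ι), a) ∈ e := by
      intro i
      have : (i : ι) ∈ e.image Prod.fst := by rw [hi]; exact i.2
      obtain ⟨q, hq, hq1⟩ := Finset.mem_image.1 this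
      exact ⟨q.2, by rw [← hq1]; exact hq⟩
    choose g hg using hex
    refine Finset.mem_image.2 ⟨g, Finset.mem_univ _, ?_⟩
    ext ⟨i, a⟩
    simp only [Finset.mem_image, Finset.mem_attach, true_and]
    constructor
    · rintro ⟨j, hj⟩
      rw [← hj]
      exact hg j
    · intro h
      have hiQ : i ∈ Q := by
        rw [← hi]
        exact Finset.mem_image_of_mem Prod.fst h
      refine ⟨⟨i, hiQ⟩, ?_⟩
      have := hinj (hg ⟨i, hiQ⟩) h rfl
      exact this
  refine (Finset.card_le_card hsub).trans (Finset.card_image_le.trans ?_)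
  simp

private theorem Clu_c2 {s : ℕ} {ι : Type} [Fintype ι] [DecidableEq ι] (Q : Finset ι) (i0 : ι)
    (hi0 : i0 ∈ Q) (a : Fin s)
    (H : Finset (Finset (ι × Fin s)))
    (hH : ∀ e ∈ H, e.card = Q.card ∧ e.image Prod.fst = Q ∧ (i0, a) ∈ e) :
    H.card ≤ s ^ (Q.card - 1) := by
  classical
  have h1 : (H.image (fun e => e.erase (i0, a))).card = H.card := by
    refine Finset.card_image_of_injOn ?_
    intro e he e' he' h
    have h2 : e.erase (i0, a) = e'.erase (i0, a) := h
    rw [← Finset.insert_erase (hH e he).2.2, h2, Finset.insert_erase (hH e' he').2.2]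
  rw [← h1, ← Finset.card_erase_of_mem hi0]
  refine Clu_c1 (Q.erase i0) _ ?_
  intro e' he'
  obtain ⟨e, he, rfl⟩ := Finset.mem_image.1 he'
  obtain ⟨hc, hi, hm⟩ := hH e he
  have hinj : Set.InjOn Prod.fst (e : Set (ι × Fin s)) := by
    rw [← Finset.card_image_iff, hi, hc]
  refine ⟨by rw [Finset.card_erase_of_mem hm, Finset.card_erase_of_mem hi0, hc], ?_⟩
  ext i
  simp only [Finset.mem_image, Finset.mem_erase]
  constructor
  · rintro ⟨q, ⟨hq1, hq2⟩, rfl⟩
    refine ⟨fun h => hq1 (hinj hq2 hm h), ?_⟩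
    rw [← hi]
    exact Finset.mem_image_of_mem Prod.fst hq2
  · rintro ⟨hne, hiQ⟩
    rw [← hi] at hiQ
    obtain ⟨q, hq, rfl⟩ := Finset.mem_image.1 hiQ
    exact ⟨q, ⟨fun h => hne (by rw [h]), hq⟩, rfl⟩

theorem exists_cluster {d s N D : ℕ} {ι : Type} [Fintype ι] [DecidableEq ι] (hd : 1 ≤ d)
    (p : ι → Pt d) (𝒬 : Finset (Finset ι)) (hcard : ∀ Q ∈ 𝒬, Q.card = d + 1)
    (h1 : ∀ x : Pt d, (∀ i, x ≠ p i) →
      {Q : Finset ι | Q ∈ 𝒬 ∧ x ∈ convexHull ℝ (p '' (Q : Set ι))}.ncard ≤ N)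
    (h2 : ∀ i, ∀ Q ∈ 𝒬, p i ∉ convexHull ℝ (p '' ((Q.erase i : Finset ι) : Set ι)))
    (h3 : ∀ i, {Q : Finset ι | Q ∈ 𝒬 ∧ i ∈ Q}.ncard ≤ D) :
    ∃ v : ι × Fin s → Pt d, ∀ x : Pt d,
      {e : Finset (ι × Fin s) | e.card = d + 1 ∧ e.image Prod.fst ∈ 𝒬 ∧
        x ∈ convexHull ℝ (v '' (e : Set (ι × Fin s)))}.ncard ≤ N * s ^ (d + 1) + D * s ^ d := by
  classical
  obtain ⟨δ, hδ⟩ : ∃ δ : Fin s → Pt d, Function.Injective δ := by
    refine ⟨fun a => EuclideanSpace.single (⟨0, hd⟩ : Fin d) ((a : ℕ) : ℝ), ?_⟩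
    intro a b hab
    have h : (EuclideanSpace.single (⟨0, hd⟩ : Fin d) ((a : ℕ) : ℝ)) ⟨0, hd⟩ =
        (EuclideanSpace.single (⟨0, hd⟩ : Fin d) ((b : ℕ) : ℝ)) ⟨0, hd⟩ := by
      have hab' : EuclideanSpace.single (⟨0, hd⟩ : Fin d) ((a : ℕ) : ℝ) =
        EuclideanSpace.single (⟨0, hd⟩ : Fin d) ((b : ℕ) : ℝ) := hab
      rw [hab']
    simp only [PiLp.single_apply, if_true] at h
    exact Fin.ext (by exact_mod_cast h)
  set ε : ℕ → ℝ := fun k => 1 / ((k : ℝ) + 1) with hε
  have hεpos : ∀ k, 0 < ε k := fun k => by positivity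
  set v : ℕ → ι × Fin s → Pt d := fun k q => p q.1 + ε k • δ q.2 with hvdef
  by_contra hcon
  push Not at hcon
  choose x hx using fun k => hcon (v k)
  set Hk : ℕ → Finset (Finset (ι × Fin s)) := fun k => Finset.univ.filter
    (fun e => e.card = d + 1 ∧ e.image Prod.fst ∈ 𝒬 ∧
      x k ∈ convexHull ℝ (v k '' (e : Set (ι × Fin s)))) with hHk
  have hcardHk : ∀ k, N * s ^ (d + 1) + D * s ^ d < (Hk k).card := by
    intro k
    have h := hx k
    have h' : {e : Finset (ι × Fin s) | e.card = d + 1 ∧ e.image Prod.fst ∈ 𝒬 ∧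
        x k ∈ convexHull ℝ (v k '' (e : Set (ι × Fin s)))} =
        ((Hk k : Finset (Finset (ι × Fin s))) : Set (Finset (ι × Fin s))) := by
      ext e
      simp [hHk]
    rw [h', Set.ncard_coe_finset] at h
    exact h
  let U : Ultrafilter ℕ := hyperfilter ℕ
  have hUle : (U : Filter ℕ) ≤ atTop := by
    rw [← Nat.cofinite_eq_atTop]
    exact hyperfilter_le_cofinite
  obtain ⟨H, hH⟩ : ∃ H, ∀ᶠ k in (U : Filter ℕ), Hk k = H := by
    obtain ⟨H, hH⟩ := (U.map Hk).eq_pure_of_finite
    refine ⟨H, ?_⟩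
    have h1 : ({H} : Set (Finset (Finset (ι × Fin s)))) ∈ U.map Hk := by
      rw [hH]
      exact Filter.mem_pure.2 rfl
    exact h1
  have hHcard : N * s ^ (d + 1) + D * s ^ d < H.card := by
    obtain ⟨k, hk⟩ := hH.exists
    rw [← hk]
    exact hcardHk k
  have hmemH : ∀ e ∈ H, e.card = d + 1 ∧ e.image Prod.fst ∈ 𝒬 := by
    intro e he
    obtain ⟨k, hk⟩ := hH.exists
    rw [← hk, hHk] at he
    have := (Finset.mem_filter.1 he).2
    exact ⟨this.1, this.2.1⟩
  have hxH : ∀ e ∈ H, ∀ᶠ k in (U : Filter ℕ),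
      x k ∈ convexHull ℝ (v k '' (e : Set (ι × Fin s))) := by
    intro e he
    filter_upwards [hH] with k hk
    rw [← hk, hHk] at he
    exact (Finset.mem_filter.1 he).2.2.2
  have hεlim : Tendsto ε (U : Filter ℕ) (𝓝 0) :=
    (tendsto_one_div_add_atTop_nhds_zero_nat (𝕜 := ℝ)).mono_left hUle
  have hv : ∀ q : ι × Fin s, Tendsto (fun k => v k q) (U : Filter ℕ)
      (𝓝 ((fun q : ι × Fin s => p q.1) q)) := by
    intro q
    have h1 : Tendsto (fun k => p q.1 + ε k • δ q.2) (U : Filter ℕ)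
        (𝓝 (p q.1 + (0 : ℝ) • δ q.2)) :=
      tendsto_const_nhds.add (hεlim.smul tendsto_const_nhds)
    rw [zero_smul, add_zero] at h1
    exact h1
  have himg : ∀ e : Finset (ι × Fin s), (fun q : ι × Fin s => p q.1) '' (e : Set (ι × Fin s)) =
      p '' ((e.image Prod.fst : Finset ι) : Set ι) := by
    intro e
    rw [Finset.coe_image, Set.image_image]
  have hinj : ∀ e ∈ H, Set.InjOn Prod.fst (e : Set (ι × Fin s)) := by
    intro e he
    rw [← Finset.card_image_iff, (hmemH e he).1, hcard _ (hmemH e he).2]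
  obtain ⟨e0, he0⟩ : H.Nonempty := by
    rw [← Finset.card_pos]
    omega
  obtain ⟨xl, -, hxl⟩ := Clu_conv U e0 v (fun q : ι × Fin s => p q.1) hv x (hxH e0 he0)
  have hxlmem : ∀ e ∈ H, xl ∈ convexHull ℝ (p '' ((e.image Prod.fst : Finset ι) : Set ι)) := by
    intro e he
    obtain ⟨y, hy, hylim⟩ := Clu_conv U e v (fun q : ι × Fin s => p q.1) hv x (hxH e he)
    rw [tendsto_nhds_unique hxl hylim, ← himg e]
    exact hy
  -- fibre bound
  have hfib1 : ∀ Q ∈ 𝒬, ((H.filter (fun e => e.image Prod.fst = Q)).card ≤ s ^ (d + 1)) := by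
    intro Q hQ
    rw [← hcard Q hQ]
    refine Clu_c1 Q _ ?_
    intro e he
    have h1 := Finset.mem_filter.1 he
    exact ⟨by rw [(hmemH e h1.1).1, hcard Q hQ], h1.2⟩
  by_cases hcase : ∃ i0, xl = p i0
  · obtain ⟨i0, hi0⟩ := hcase
    -- every edge of H has a vertex over i0
    have hi0Q : ∀ e ∈ H, i0 ∈ e.image Prod.fst := by
      intro e he
      by_contra hnot
      have h := h2 i0 _ (hmemH e he).2
      rw [Finset.erase_eq_of_notMem hnot, ← hi0] at h
      exact h (hxlmem e he)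
    set Ha : Fin s → Finset (Finset (ι × Fin s)) := fun a => H.filter (fun e => (i0, a) ∈ e)
      with hHa
    have hfib2 : ∀ a, ∀ Q ∈ 𝒬, (((Ha a).filter (fun e => e.image Prod.fst = Q)).card ≤ s ^ d) := by
      intro a Q hQ
      by_cases hiQ : i0 ∈ Q
      · have h := Clu_c2 Q i0 hiQ a ((Ha a).filter (fun e => e.image Prod.fst = Q)) ?_
        · rw [hcard Q hQ, Nat.add_sub_cancel] at h
          exact h
        · intro e he
          have h1 := Finset.mem_filter.1 he
          have h2' := Finset.mem_filter.1 h1.1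
          exact ⟨by rw [(hmemH e h2'.1).1, hcard Q hQ], h1.2, h2'.2⟩
      · have : (Ha a).filter (fun e => e.image Prod.fst = Q) = ∅ := by
          rw [Finset.filter_eq_empty_iff]
          intro e he heq
          exact hiQ (heq ▸ hi0Q e (Finset.mem_filter.1 he).1)
        rw [this]
        exact Nat.zero_le _
    -- the direction argument
    have hdirect : ∀ a, (∀ᶠ k in (U : Filter ℕ), x k ≠ v k (i0, a)) → (Ha a).card ≤ N * s ^ d := by
      intro a hne
      rcases (Ha a).eq_empty_or_nonempty with hemp | ⟨e1, he1⟩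
      · rw [hemp]; exact Nat.zero_le _
      have hc : ∀ e ∈ Ha a, ∃ c : Pt d, c ∈ convexHull ℝ (p '' ((e.image Prod.fst : Finset ι) : Set ι)) ∧
          c - p i0 ≠ 0 ∧
          Tendsto (fun k => ‖x k - v k (i0, a)‖⁻¹ • (x k - v k (i0, a))) (U : Filter ℕ)
            (𝓝 (‖c - p i0‖⁻¹ • (c - p i0))) := by
        intro e he
        have heH := (Finset.mem_filter.1 he).1
        have hme : (i0, a) ∈ e := (Finset.mem_filter.1 he).2
        have himg2 : (fun q : ι × Fin s => p q.1) '' ((e.erase (i0, a) : Finset _) : Set (ι × Fin s)) =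
            p '' (((e.image Prod.fst).erase i0 : Finset ι) : Set ι) := by
          rw [himg]
          congr 2
          ext i
          simp only [Finset.mem_image, Finset.mem_erase]
          constructor
          · rintro ⟨q, ⟨hq1, hq2⟩, rfl⟩
            exact ⟨fun h => hq1 (hinj e heH hq2 hme h), q, hq2, rfl⟩
          · rintro ⟨hne', q, hq, rfl⟩
            exact ⟨q, ⟨fun h => hne' (by rw [h]), hq⟩, rfl⟩
        have hno : p i0 ∉ convexHull ℝ ((fun q : ι × Fin s => p q.1) ''
            ((e.erase (i0, a) : Finset _) : Set (ι × Fin s))) := by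
          rw [himg2]
          exact h2 i0 _ (hmemH e heH).2
        obtain ⟨c, hc1, hc2⟩ := Clu_dir U e (i0, a) hme v (fun q : ι × Fin s => p q.1) hv x
          (hxH e heH) hne hno
        refine ⟨c, ?_, ?_, hc2⟩
        · rw [himg2] at hc1
          refine convexHull_mono ?_ hc1
          exact Set.image_mono (by exact_mod_cast Finset.erase_subset _ _)
        · intro h
          rw [sub_eq_zero] at h
          exact hno (h ▸ hc1)
      obtain ⟨c1, -, hc1ne, hc1lim⟩ := hc e1 he1
      set u : Pt d := ‖c1 - p i0‖⁻¹ • (c1 - p i0) with hu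
      have hu0 : u ≠ 0 := by
        rw [hu]
        exact smul_ne_zero (inv_ne_zero (norm_ne_zero_iff.2 hc1ne)) hc1ne
      -- for each edge small steps in direction u stay in the simplex
      have hstep : ∀ e ∈ Ha a, ∃ r : ℝ, 0 < r ∧ ∀ τ : ℝ, 0 < τ → τ ≤ r →
          p i0 + τ • u ∈ convexHull ℝ (p '' ((e.image Prod.fst : Finset ι) : Set ι)) := by
        intro e he
        obtain ⟨c, hcmem, hcne, hclim⟩ := hc e he
        have hequ : u = ‖c - p i0‖⁻¹ • (c - p i0) := tendsto_nhds_unique hc1lim hclim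
        have hpos : 0 < ‖c - p i0‖ := norm_pos_iff.2 hcne
        refine ⟨‖c - p i0‖, hpos, fun τ hτ hτr => ?_⟩
        have h1 : p i0 + τ • u = (1 - τ * ‖c - p i0‖⁻¹) • p i0 + (τ * ‖c - p i0‖⁻¹) • c := by
          rw [hequ, smul_smul, smul_sub, sub_smul, one_smul]
          abel
        rw [h1]
        have hmemi0 : p i0 ∈ convexHull ℝ (p '' ((e.image Prod.fst : Finset ι) : Set ι)) :=
          subset_convexHull ℝ _ (Set.mem_image_of_mem p
            (by exact_mod_cast hi0Q e (Finset.mem_filter.1 he).1))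
        refine (convex_convexHull ℝ _) hmemi0 hcmem ?_ ?_ (by ring)
        · rw [sub_nonneg, ← div_eq_mul_inv, div_le_one hpos]
          exact hτr
        · positivity
      choose! r hr using hstep
      -- a common small step avoiding all p i
      obtain ⟨τ, hτ0, hτr, hτp⟩ : ∃ τ : ℝ, 0 < τ ∧ (∀ e ∈ Ha a, τ ≤ r e) ∧
          ∀ i, p i0 + τ • u ≠ p i := by
        set R : ℝ := (Ha a).inf' ⟨e1, he1⟩ r with hR
        have hRpos : 0 < R := by
          rw [hR, Finset.lt_inf'_iff]
          intro e he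
          exact (hr e he).1
        have hfin : (⋃ i : ι, {τ : ℝ | p i0 + τ • u = p i}).Finite := by
          refine Set.finite_iUnion fun i => ?_
          refine Set.Subsingleton.finite ?_
          intro τ1 h1 τ2 h2'
          have h1' : p i0 + τ1 • u = p i := h1
          have h2'' : p i0 + τ2 • u = p i := h2'
          have h3 : p i0 + τ1 • u = p i0 + τ2 • u := by rw [h1', h2'']
          exact smul_left_injective ℝ hu0 (add_left_cancel h3)
        obtain ⟨τ, hτ1, hτ2⟩ := ((Set.Ioc_infinite hRpos).sdiff hfin).nonempty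
        refine ⟨τ, hτ1.1, fun e he => hτ1.2.trans (Finset.inf'_le _ he), fun i hi => ?_⟩
        exact hτ2 (Set.mem_iUnion.2 ⟨i, hi⟩)
      have hmaps : ∀ e ∈ Ha a, e.image Prod.fst ∈ 𝒬.filter
          (fun Q : Finset ι => p i0 + τ • u ∈ convexHull ℝ (p '' (Q : Set ι))) := by
        intro e he
        refine Finset.mem_filter.2 ⟨(hmemH e (Finset.mem_filter.1 he).1).2, ?_⟩
        exact (hr e he).2 τ hτ0 (hτr e he)
      have h4 := Finset.card_le_mul_card_image_of_maps_to hmaps (s ^ d)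
        (fun Q hQ => hfib2 a Q (Finset.mem_filter.1 hQ).1)
      have h5 : (𝒬.filter (fun Q : Finset ι => p i0 + τ • u ∈ convexHull ℝ (p '' (Q : Set ι)))).card ≤ N := by
        have := h1 (p i0 + τ • u) hτp
        have h6 : {Q : Finset ι | Q ∈ 𝒬 ∧ p i0 + τ • u ∈ convexHull ℝ (p '' (Q : Set ι))} =
            ((𝒬.filter (fun Q : Finset ι => p i0 + τ • u ∈ convexHull ℝ (p '' (Q : Set ι))) :
              Finset (Finset ι)) : Set (Finset ι)) := by
          ext Q
          simp
        rw [h6, Set.ncard_coe_finset] at this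
        exact this
      calc (Ha a).card ≤ s ^ d * _ := h4
        _ ≤ s ^ d * N := Nat.mul_le_mul_left _ h5
        _ = N * s ^ d := Nat.mul_comm _ _
    have hdeg : ∀ a, (Ha a).card ≤ D * s ^ d := by
      intro a
      have hmaps : ∀ e ∈ Ha a, e.image Prod.fst ∈ 𝒬.filter (fun Q => i0 ∈ Q) := by
        intro e he
        exact Finset.mem_filter.2 ⟨(hmemH e (Finset.mem_filter.1 he).1).2,
          hi0Q e (Finset.mem_filter.1 he).1⟩
      have h4 := Finset.card_le_mul_card_image_of_maps_to hmaps (s ^ d)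
        (fun Q hQ => hfib2 a Q (Finset.mem_filter.1 hQ).1)
      have h5 : (𝒬.filter (fun Q => i0 ∈ Q)).card ≤ D := by
        have := h3 i0
        have h6 : {Q : Finset ι | Q ∈ 𝒬 ∧ i0 ∈ Q} =
            ((𝒬.filter (fun Q => i0 ∈ Q) : Finset (Finset ι)) : Set (Finset ι)) := by
          ext Q
          simp
        rw [h6, Set.ncard_coe_finset] at this
        exact this
      calc (Ha a).card ≤ s ^ d * _ := h4
        _ ≤ s ^ d * D := Nat.mul_le_mul_left _ h5
        _ = D * s ^ d := Nat.mul_comm _ _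
    -- covering
    have hcover : H ⊆ Finset.univ.biUnion Ha := by
      intro e he
      obtain ⟨q, hq, hq1⟩ := Finset.mem_image.1 (hi0Q e he)
      refine Finset.mem_biUnion.2 ⟨q.2, Finset.mem_univ _, Finset.mem_filter.2 ⟨he, ?_⟩⟩
      rw [← hq1]
      exact hq
    have hsumle : H.card ≤ ∑ a : Fin s, (Ha a).card :=
      (Finset.card_le_card hcover).trans Finset.card_biUnion_le
    by_cases hex : ∃ a0, ¬ ∀ᶠ k in (U : Filter ℕ), x k ≠ v k (i0, a0)
    · obtain ⟨a0, ha0⟩ := hex
      have hothers : ∀ a, a ≠ a0 → (Ha a).card ≤ N * s ^ d := by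
        intro a haa0
        apply hdirect a
        by_contra hnot
        rw [Filter.not_eventually] at ha0 hnot
        have h1 : ∀ᶠ k in (U : Filter ℕ), x k = v k (i0, a0) := by
          have := Ultrafilter.frequently_iff_eventually.1 ha0
          filter_upwards [this] with k hk
          exact not_not.1 hk
        have h2' : ∀ᶠ k in (U : Filter ℕ), x k = v k (i0, a) := by
          have := Ultrafilter.frequently_iff_eventually.1 hnot
          filter_upwards [this] with k hk
          exact not_not.1 hk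
        obtain ⟨k, hk1, hk2⟩ := (h1.and h2').exists
        rw [hk1] at hk2
        have h3' : ε k • δ a0 = ε k • δ a := add_left_cancel hk2
        exact haa0 (hδ (smul_right_injective _ (hεpos k).ne' h3')).symm
      have h6 : ∑ a : Fin s, (Ha a).card ≤ ∑ a : Fin s, (N * s ^ d + if a = a0 then D * s ^ d else 0) := by
        refine Finset.sum_le_sum fun a _ => ?_
        by_cases haa : a = a0
        · rw [if_pos haa]
          exact (hdeg a).trans (Nat.le_add_left _ _)
        · rw [if_neg haa]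
          exact hothers a haa
      rw [Finset.sum_add_distrib, Finset.sum_ite_eq' Finset.univ a0] at h6
      simp only [Finset.sum_const, Finset.card_univ, Fintype.card_fin, smul_eq_mul,
        Finset.mem_univ, if_true] at h6
      have h7 : s * (N * s ^ d) = N * s ^ (d + 1) := by ring
      omega
    · push Not at hex
      have h6 : ∑ a : Fin s, (Ha a).card ≤ ∑ _a : Fin s, N * s ^ d :=
        Finset.sum_le_sum fun a _ => hdirect a (hex a)
      simp only [Finset.sum_const, Finset.card_univ, Fintype.card_fin, smul_eq_mul] at h6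
      have h7 : s * (N * s ^ d) = N * s ^ (d + 1) := by ring
      omega
  · push Not at hcase
    have hmaps : ∀ e ∈ H, e.image Prod.fst ∈ 𝒬.filter
        (fun Q : Finset ι => xl ∈ convexHull ℝ (p '' (Q : Set ι))) := by
      intro e he
      exact Finset.mem_filter.2 ⟨(hmemH e he).2, hxlmem e he⟩
    have h4 := Finset.card_le_mul_card_image_of_maps_to hmaps (s ^ (d + 1))
      (fun Q hQ => hfib1 Q (Finset.mem_filter.1 hQ).1)
    have h5 : (𝒬.filter (fun Q : Finset ι => xl ∈ convexHull ℝ (p '' (Q : Set ι)))).card ≤ N := by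
      have := h1 xl hcase
      have h6 : {Q : Finset ι | Q ∈ 𝒬 ∧ xl ∈ convexHull ℝ (p '' (Q : Set ι))} =
          ((𝒬.filter (fun Q : Finset ι => xl ∈ convexHull ℝ (p '' (Q : Set ι))) :
            Finset (Finset ι)) : Set (Finset ι)) := by
        ext Q
        simp
      rw [h6, Set.ncard_coe_finset] at this
      exact this
    have h6 : H.card ≤ N * s ^ (d + 1) := by
      calc H.card ≤ s ^ (d + 1) * _ := h4
        _ ≤ s ^ (d + 1) * N := Nat.mul_le_mul_left _ h5
        _ = N * s ^ (d + 1) := Nat.mul_comm _ _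
    omega

end Pool.Agent.H74.GB
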