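import Mathlib

/-!
Module Eqn (only Mathlib): an exponential equation.

Paper proof (complete). Write `u = 2^(a 0)`, `w = 2^(a 3)`, `q = 2^(a 0) / 2^(a 1) = 2^(a 3) / 2^(a 2)`
(because `a 0 + a 2 = a 1 + a 3`); the equation is `x1 + q x3 = u x2 + w x4`. A tuple is determined by
three of its entries. Private lemma: for `t > 0` at most three `a : ℕ` satisfy `t / 2 ≤ 2^a ≤ 2 t`
(two of them have `2^|a - a'| ≤ 4`). Four cases, each with at most `3 K` solutions.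
A: `q x3 ≤ x1`, `w x4 ≤ u x2`. Then `x1 ≤ 2 u x2`, `u x2 ≤ 2 x1`, and `x1 > 0` (else `x3 = 0`,
`x2 = x4 = 0`, contradicting `e1`), `x2 > 0`: at most three values of `a 0` (`t = x1 / x2`). Fix `a 0`.
If `x3 > 0`, then `a 3` determines `q`, i.e. `a 1`, and `a 2`. If `x3 = 0 < x4` then `w`, i.e. `a 3`, is
determined, and `a 1` is free. If `x3 = x4 = 0` then `x1 = 2^(a 0) x2`, against `e1`.
B: `q x3 ≤ x1`, `u x2 < w x4`. Then `x1 ≤ 2 w x4`, `w x4 ≤ 2 x1`, `x4 > 0`, `x1 > 0`: at most three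
values of `a 3`. Fix `a 3`. If `x3 > 0` then `a 0` determines `q`, so `a 2` (`q = 2^(a 3) / 2^(a 2)`) and
`a 1`. If `x3 = 0 < x2` then `u` is determined, and `a 2` is free. If `x2 = x3 = 0`: against `e4`.
C: `x1 < q x3`, `w x4 ≤ u x2`. Then `q x3 ≤ 2 u x2`, `u x2 ≤ 2 q x3`, `x3 > 0`, `x2 > 0`; as
`q = u / 2^(a 1)`, `x3 / x2 ≤ 2 * 2^(a 1)` and `2^(a 1) ≤ 2 x3 / x2`: at most three values of `a 1`. Fix
`a 1`. If `x4 > 0` then `a 0` determines `w`, so `a 3` and `a 2`. If `x4 = 0`: `x1 = u (x2 - x3 / 2^(a 1))`;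
if `x1 > 0` then `u`, i.e. `a 0`, is determined and `a 3` is free; if `x1 = 0` then `x3 = 2^(a 1) x2`,
against `e2`.
D: `x1 < q x3`, `u x2 < w x4`. Then `q x3 ≤ 2 w x4`, `w x4 ≤ 2 q x3`, `q = w / 2^(a 2)`: at most three
values of `a 2`. Fix `a 2`. If `x2 > 0` then `a 3` determines `u`, so `a 0` and `a 1`. If `x2 = 0`:
`x1 = w (x4 - x3 / 2^(a 2))`; if `x1 > 0` then `a 3` is determined and `a 0` is free; if `x1 = 0` then
`x3 = 2^(a 2) x4`, against `e3`.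
Together at most `12 K`.
-/

namespace Pool.Agent.H74.GB

private lemma eqn_count {K : ℕ} (S : Set (Fin 4 → Fin K)) (f g : (Fin 4 → Fin K) → Fin K)
    (h1 : ∀ a ∈ S, ∀ a' ∈ S, (f a : ℕ) ≤ f a' + 2)
    (h2 : ∀ a ∈ S, ∀ a' ∈ S, f a = f a' → g a = g a' → a = a') : S.ncard ≤ 3 * K := by
  classical
  rcases S.eq_empty_or_nonempty with hS | hS
  · rw [hS]; simp
  · obtain ⟨a0, ha0, hmin⟩ := Set.exists_min_image S (fun a => (f a : ℕ)) (Set.toFinite S) hS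
    have key : S.ncard ≤ ((Finset.range 3 ×ˢ (Finset.univ : Finset (Fin K)) :
        Finset (ℕ × Fin K)) : Set (ℕ × Fin K)).ncard := by
      apply Set.ncard_le_ncard_of_injOn (fun a => ((f a : ℕ) - f a0, g a))
      · intro a ha
        rw [Finset.mem_coe, Finset.mem_product, Finset.mem_range]
        have := h1 a ha a0 ha0
        exact ⟨by simp only; omega, Finset.mem_univ _⟩
      · intro a ha a' ha' heq
        simp only [Prod.mk.injEq] at heq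
        have m1 := hmin a ha
        have m2 := hmin a' ha'

        exact h2 a ha a' ha' (Fin.ext (by omega)) heq.2
    rw [Set.ncard_coe_finset, Finset.card_product, Finset.card_range, Finset.card_univ,
      Fintype.card_fin] at key
    exact key

private lemma eqn_ext {K : ℕ} {a a' : Fin 4 → Fin K} (h0 : (a 0 : ℕ) = a' 0)
    (h1 : (a 1 : ℕ) = a' 1) (h2 : (a 2 : ℕ) = a' 2) (h3 : (a 3 : ℕ) = a' 3) : a = a' := by
  funext i
  apply Fin.ext
  fin_cases i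
  · exact h0
  · exact h1
  · exact h2
  · exact h3

private lemma eqn_inj {m n : ℕ} (h : (2 : ℝ) ^ m = 2 ^ n) : m = n :=
  pow_right_injective₀ (by norm_num) (by norm_num) h

private lemma eqn_le {m n : ℕ} (h : (2 : ℝ) ^ m ≤ 4 * 2 ^ n) : m ≤ n + 2 := by
  have h' : (2 : ℝ) ^ m ≤ 2 ^ (n + 2) := by
    rw [pow_add]; linarith
  exact (pow_le_pow_iff_right₀ (by norm_num)).1 h'

private lemma eqn_mul {x u u' : ℝ} (hx : 0 < x) (h : u * x = u' * x) : u = u' :=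
  mul_right_cancel₀ hx.ne' h

theorem card_sol (K : ℕ) (x1 x2 x3 x4 : ℝ) (h1 : 0 ≤ x1) (h2 : 0 ≤ x2) (h3 : 0 ≤ x3)
    (h4 : 0 ≤ x4)
    (e1 : ∀ a : ℕ, a < K → ¬ (x3 = 0 ∧ x4 = 0 ∧ x1 = 2 ^ a * x2))
    (e2 : ∀ a : ℕ, a < K → ¬ (x1 = 0 ∧ x4 = 0 ∧ x3 = 2 ^ a * x2))
    (e3 : ∀ a : ℕ, a < K → ¬ (x1 = 0 ∧ x2 = 0 ∧ x3 = 2 ^ a * x4))
    (e4 : ∀ a : ℕ, a < K → ¬ (x2 = 0 ∧ x3 = 0 ∧ x1 = 2 ^ a * x4)) :
    {a : Fin 4 → Fin K | (a 0 : ℕ) + a 2 = a 1 + a 3 ∧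
      x1 + 2 ^ (a 0 : ℕ) / 2 ^ (a 1 : ℕ) * x3 = 2 ^ (a 0 : ℕ) * x2 + 2 ^ (a 3 : ℕ) * x4}.ncard ≤
      12 * K := by
  classical
  set Sol : Set (Fin 4 → Fin K) := {a : Fin 4 → Fin K | (a 0 : ℕ) + a 2 = a 1 + a 3 ∧
      x1 + 2 ^ (a 0 : ℕ) / 2 ^ (a 1 : ℕ) * x3 = 2 ^ (a 0 : ℕ) * x2 + 2 ^ (a 3 : ℕ) * x4} with hSol
  have hq : ∀ a ∈ Sol, (2 : ℝ) ^ (a 0 : ℕ) / 2 ^ (a 1 : ℕ) = 2 ^ (a 3 : ℕ) / 2 ^ (a 2 : ℕ) := by
    intro a ha
    have h := ha.1
    rw [div_eq_div_iff (by positivity) (by positivity), ← pow_add, ← pow_add, h, add_comm]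
  have p : ∀ n : ℕ, (0 : ℝ) < 2 ^ n := fun n => by positivity
  set SA : Set (Fin 4 → Fin K) := {a | a ∈ Sol ∧ 2 ^ (a 0 : ℕ) / 2 ^ (a 1 : ℕ) * x3 ≤ x1 ∧
    2 ^ (a 3 : ℕ) * x4 ≤ 2 ^ (a 0 : ℕ) * x2} with hSA
  set SB : Set (Fin 4 → Fin K) := {a | a ∈ Sol ∧ 2 ^ (a 0 : ℕ) / 2 ^ (a 1 : ℕ) * x3 ≤ x1 ∧
    2 ^ (a 0 : ℕ) * x2 < 2 ^ (a 3 : ℕ) * x4} with hSB
  set SC : Set (Fin 4 → Fin K) := {a | a ∈ Sol ∧ x1 < 2 ^ (a 0 : ℕ) / 2 ^ (a 1 : ℕ) * x3 ∧
    2 ^ (a 3 : ℕ) * x4 ≤ 2 ^ (a 0 : ℕ) * x2} with hSC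
  set SD : Set (Fin 4 → Fin K) := {a | a ∈ Sol ∧ x1 < 2 ^ (a 0 : ℕ) / 2 ^ (a 1 : ℕ) * x3 ∧
    2 ^ (a 0 : ℕ) * x2 < 2 ^ (a 3 : ℕ) * x4} with hSD
  -- case A
  have cA : SA.ncard ≤ 3 * K := by
    have pos2 : ∀ a ∈ SA, 0 < x2 := by
      rintro a ⟨⟨_, he⟩, ha, hb⟩
      rcases h2.lt_or_eq with h | h
      · exact h
      · exfalso
        rw [← h] at hb he
        have m3 := mul_nonneg (p (a 3)).le h4
        have m4 := mul_nonneg (div_pos (p (a 0)) (p (a 1))).le h3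
        have k4 : 2 ^ (a 3 : ℕ) * x4 = 0 := by linarith
        have z4 : x4 = 0 := (mul_eq_zero.1 k4).resolve_left (p (a 3)).ne'
        have z1 : x1 = 0 := by linarith
        have k3 : 2 ^ (a 0 : ℕ) / 2 ^ (a 1 : ℕ) * x3 = 0 := by linarith
        have z3 : x3 = 0 := (mul_eq_zero.1 k3).resolve_left (div_pos (p (a 0)) (p (a 1))).ne'
        exact e1 (a 0) (a 0).2 ⟨z3, z4, by rw [z1, ← h, mul_zero]⟩
    apply eqn_count SA (fun a => a 0) (fun a => if 0 < x3 then a 3 else a 1)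
    · intro a ha a' ha'
      have hx := pos2 a ha
      obtain ⟨⟨_, he⟩, hb, hc⟩ := ha
      obtain ⟨⟨_, he'⟩, hb', hc'⟩ := ha'
      apply eqn_le
      have m1 := mul_nonneg (p (a 3)).le h4
      have m3 := mul_nonneg (div_pos (p (a' 0)) (p (a' 1))).le h3
      have t : 2 ^ (a 0 : ℕ) * x2 ≤ (4 * 2 ^ (a' 0 : ℕ)) * x2 := by linarith
      exact le_of_mul_le_mul_right t hx
    · intro a ha a' ha' hf hg
      obtain ⟨⟨hs, he⟩, hb, hc⟩ := ha
      obtain ⟨⟨hs', he'⟩, hb', hc'⟩ := ha'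

      have f0 : (a 0 : ℕ) = a' 0 := by rw [hf]
      rcases h3.lt_or_eq with hx3 | hx3
      · rw [if_pos hx3, if_pos hx3] at hg
        have f3 : (a 3 : ℕ) = a' 3 := by rw [hg]
        rw [f0, f3] at he
        have hqq : (2 : ℝ) ^ (a' 0 : ℕ) / 2 ^ (a 1 : ℕ) = 2 ^ (a' 0 : ℕ) / 2 ^ (a' 1 : ℕ) :=
          eqn_mul hx3 (by linarith)
        have f1 : (a 1 : ℕ) = a' 1 := by
          rw [div_eq_div_iff (p _).ne' (p _).ne'] at hqq
          exact (eqn_inj (mul_left_cancel₀ (p _).ne' hqq)).symm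
        exact eqn_ext f0 f1 (by omega) f3
      · have hn : ¬ 0 < x3 := by rw [← hx3]; exact lt_irrefl _
        rw [if_neg hn, if_neg hn] at hg
        have f1 : (a 1 : ℕ) = a' 1 := by rw [hg]
        rw [← hx3, mul_zero, add_zero] at he he'
        rcases h4.lt_or_eq with hx4 | hx4
        · have hw : (2 : ℝ) ^ (a 3 : ℕ) = 2 ^ (a' 3 : ℕ) :=
            eqn_mul hx4 (by rw [f0] at he; linarith)
          have f3 := eqn_inj hw
          exact eqn_ext f0 f1 (by omega) f3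
        · exfalso
          rw [← hx4, mul_zero, add_zero] at he
          exact e1 (a 0) (a 0).2 ⟨hx3.symm, hx4.symm, he⟩
  -- case B
  have cB : SB.ncard ≤ 3 * K := by
    have pos4 : ∀ a ∈ SB, 0 < x4 := by
      rintro a ⟨⟨_, he⟩, ha, hb⟩
      have m2 := mul_nonneg (p (a 0)).le h2
      rcases h4.lt_or_eq with h | h
      · exact h
      · exfalso
        rw [← h, mul_zero] at hb
        linarith
    apply eqn_count SB (fun a => a 3) (fun a => if 0 < x3 then a 0 else a 2)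
    · intro a ha a' ha'
      have hx := pos4 a ha
      obtain ⟨⟨_, he⟩, hb, hc⟩ := ha
      obtain ⟨⟨_, he'⟩, hb', hc'⟩ := ha'
      apply eqn_le
      have m1 := mul_nonneg (p (a 0)).le h2
      have m3 := mul_nonneg (div_pos (p (a' 0)) (p (a' 1))).le h3
      have t : 2 ^ (a 3 : ℕ) * x4 ≤ (4 * 2 ^ (a' 3 : ℕ)) * x4 := by linarith
      exact le_of_mul_le_mul_right t hx
    · intro a ha a' ha' hf hg
      have q1 := hq a ha.1
      have q2 := hq a' ha'.1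
      obtain ⟨⟨hs, he⟩, hb, hc⟩ := ha
      obtain ⟨⟨hs', he'⟩, hb', hc'⟩ := ha'

      have f3 : (a 3 : ℕ) = a' 3 := by rw [hf]
      rw [q1] at he
      rw [q2] at he'
      rcases h3.lt_or_eq with hx3 | hx3
      · rw [if_pos hx3, if_pos hx3] at hg
        have f0 : (a 0 : ℕ) = a' 0 := by rw [hg]
        rw [f0, f3] at he
        have hqq : (2 : ℝ) ^ (a' 3 : ℕ) / 2 ^ (a 2 : ℕ) = 2 ^ (a' 3 : ℕ) / 2 ^ (a' 2 : ℕ) :=
          eqn_mul hx3 (by linarith)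
        have f2 : (a 2 : ℕ) = a' 2 := by
          rw [div_eq_div_iff (p _).ne' (p _).ne'] at hqq
          exact (eqn_inj (mul_left_cancel₀ (p _).ne' hqq)).symm
        exact eqn_ext f0 (by omega) f2 f3
      · have hn : ¬ 0 < x3 := by rw [← hx3]; exact lt_irrefl _
        rw [if_neg hn, if_neg hn] at hg
        have f2 : (a 2 : ℕ) = a' 2 := by rw [hg]
        rw [← hx3, mul_zero, add_zero] at he he'
        rcases h2.lt_or_eq with hx2 | hx2
        · have hw : (2 : ℝ) ^ (a 0 : ℕ) = 2 ^ (a' 0 : ℕ) :=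
            eqn_mul hx2 (by rw [f3] at he; linarith)
          have f0 := eqn_inj hw
          exact eqn_ext f0 (by omega) f2 f3
        · exfalso
          rw [← hx2, mul_zero, zero_add] at he
          exact e4 (a 3) (a 3).2 ⟨hx2.symm, hx3.symm, he⟩
  -- case C
  have cC : SC.ncard ≤ 3 * K := by
    have pos3 : ∀ a ∈ SC, 0 < x3 := by
      rintro a ⟨⟨_, he⟩, ha, hb⟩
      rcases h3.lt_or_eq with h | h
      · exact h
      · exfalso
        rw [← h, mul_zero] at ha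
        linarith
    have pos2 : ∀ a ∈ SC, 0 < x2 := by
      intro a ha0
      have hx := pos3 a ha0
      obtain ⟨⟨_, he⟩, ha, hb⟩ := ha0
      have m := mul_pos (div_pos (p (a 0)) (p (a 1))) hx
      rcases h2.lt_or_eq with h | h
      · exact h
      · exfalso
        rw [← h, mul_zero] at hb he
        linarith
    apply eqn_count SC (fun a => a 1) (fun a => if 0 < x4 then a 0 else (if 0 < x1 then a 3 else a 0))
    · intro a ha a' ha'
      have hx3 := pos3 a ha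
      have hx2 := pos2 a ha
      obtain ⟨⟨_, he⟩, hb, hc⟩ := ha
      obtain ⟨⟨_, he'⟩, hb', hc'⟩ := ha'
      apply eqn_le
      have m1 := mul_nonneg (p (a 3)).le h4
      have m4 := mul_nonneg (p (a' 3)).le h4
      -- u x2 ≤ 2 q x3
      have t1 : 2 ^ (a 0 : ℕ) * x2 ≤ 2 * (2 ^ (a 0 : ℕ) / 2 ^ (a 1 : ℕ) * x3) := by linarith
      have t2 : 2 ^ (a' 0 : ℕ) / 2 ^ (a' 1 : ℕ) * x3 ≤ 2 * (2 ^ (a' 0 : ℕ) * x2) := by linarith
      have s1 : 2 ^ (a 1 : ℕ) * x2 ≤ 2 * x3 := by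
        have e : 2 * (2 ^ (a 0 : ℕ) / 2 ^ (a 1 : ℕ) * x3) =
            2 ^ (a 0 : ℕ) * ((2 * x3) / 2 ^ (a 1 : ℕ)) := by ring
        rw [e] at t1
        have := le_of_mul_le_mul_left t1 (p (a 0))
        rw [le_div_iff₀ (p _)] at this
        linarith
      have s2 : x3 ≤ 2 * 2 ^ (a' 1 : ℕ) * x2 := by
        have e : 2 ^ (a' 0 : ℕ) / 2 ^ (a' 1 : ℕ) * x3 =
            2 ^ (a' 0 : ℕ) * (x3 / 2 ^ (a' 1 : ℕ)) := by ring
        have e' : 2 * (2 ^ (a' 0 : ℕ) * x2) = 2 ^ (a' 0 : ℕ) * (2 * x2) := by ring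
        rw [e, e'] at t2
        have := le_of_mul_le_mul_left t2 (p (a' 0))
        rw [div_le_iff₀ (p _)] at this
        linarith
      have t : 2 ^ (a 1 : ℕ) * x2 ≤ (4 * 2 ^ (a' 1 : ℕ)) * x2 := by linarith
      exact le_of_mul_le_mul_right t hx2
    · intro a ha a' ha' hf hg
      obtain ⟨⟨hs, he⟩, hb, hc⟩ := ha
      obtain ⟨⟨hs', he'⟩, hb', hc'⟩ := ha'

      have f1 : (a 1 : ℕ) = a' 1 := by rw [hf]
      rcases h4.lt_or_eq with hx4 | hx4
      · rw [if_pos hx4, if_pos hx4] at hg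
        have f0 : (a 0 : ℕ) = a' 0 := by rw [hg]
        rw [f0, f1] at he
        have hw : (2 : ℝ) ^ (a 3 : ℕ) = 2 ^ (a' 3 : ℕ) := eqn_mul hx4 (by linarith)
        have f3 := eqn_inj hw
        exact eqn_ext f0 f1 (by omega) f3
      · have hn : ¬ 0 < x4 := by rw [← hx4]; exact lt_irrefl _
        rw [if_neg hn, if_neg hn] at hg
        rw [← hx4, mul_zero, add_zero] at he he'
        have r1 : x1 = 2 ^ (a 0 : ℕ) * (x2 - x3 / 2 ^ (a 1 : ℕ)) := by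
          have : 2 ^ (a 0 : ℕ) / 2 ^ (a 1 : ℕ) * x3 = 2 ^ (a 0 : ℕ) * (x3 / 2 ^ (a 1 : ℕ)) := by ring
          rw [mul_sub]; linarith
        have r2 : x1 = 2 ^ (a' 0 : ℕ) * (x2 - x3 / 2 ^ (a' 1 : ℕ)) := by
          have : 2 ^ (a' 0 : ℕ) / 2 ^ (a' 1 : ℕ) * x3 = 2 ^ (a' 0 : ℕ) * (x3 / 2 ^ (a' 1 : ℕ)) := by ring
          rw [mul_sub]; linarith
        rcases h1.lt_or_eq with hx1 | hx1
        · rw [if_pos hx1, if_pos hx1] at hg
          have f3 : (a 3 : ℕ) = a' 3 := by rw [hg]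
          have hne : x2 - x3 / 2 ^ (a 1 : ℕ) ≠ 0 := by
            intro h0
            rw [h0, mul_zero] at r1
            linarith
          rw [← f1] at r2
          have f0 := eqn_inj (mul_right_cancel₀ hne (r1.symm.trans r2))
          exact eqn_ext f0 f1 (by omega) f3
        · exfalso
          rw [← hx1] at r1
          have z := (mul_eq_zero.1 r1.symm).resolve_left (p (a 0)).ne'
          refine e2 (a 1) (a 1).2 ⟨hx1.symm, hx4.symm, ?_⟩
          have : x3 / 2 ^ (a 1 : ℕ) = x2 := by linarith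
          rw [div_eq_iff (p _).ne'] at this
          linarith
  -- case D
  have cD : SD.ncard ≤ 3 * K := by
    have pos3 : ∀ a ∈ SD, 0 < x3 := by
      rintro a ⟨⟨_, he⟩, ha, hb⟩
      rcases h3.lt_or_eq with h | h
      · exact h
      · exfalso
        rw [← h, mul_zero] at ha
        linarith
    have pos4 : ∀ a ∈ SD, 0 < x4 := by
      rintro a ⟨⟨_, he⟩, ha, hb⟩
      have m2 := mul_nonneg (p (a 0)).le h2
      rcases h4.lt_or_eq with h | h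
      · exact h
      · exfalso
        rw [← h, mul_zero] at hb
        linarith
    apply eqn_count SD (fun a => a 2) (fun a => if 0 < x2 then a 3 else (if 0 < x1 then a 0 else a 3))
    · intro a ha a' ha'
      have hx3 := pos3 a ha
      have hx4 := pos4 a ha
      have q1 := hq a ha.1
      have q2 := hq a' ha'.1
      obtain ⟨⟨_, he⟩, hb, hc⟩ := ha
      obtain ⟨⟨_, he'⟩, hb', hc'⟩ := ha'
      rw [q1] at he hb
      rw [q2] at he' hb'
      apply eqn_le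
      have m1 := mul_nonneg (p (a 0)).le h2
      have m4 := mul_nonneg (p (a' 0)).le h2
      have t1 : 2 ^ (a 3 : ℕ) * x4 ≤ 2 * (2 ^ (a 3 : ℕ) / 2 ^ (a 2 : ℕ) * x3) := by linarith
      have t2 : 2 ^ (a' 3 : ℕ) / 2 ^ (a' 2 : ℕ) * x3 ≤ 2 * (2 ^ (a' 3 : ℕ) * x4) := by linarith
      have s1 : 2 ^ (a 2 : ℕ) * x4 ≤ 2 * x3 := by
        have e : 2 * (2 ^ (a 3 : ℕ) / 2 ^ (a 2 : ℕ) * x3) =
            2 ^ (a 3 : ℕ) * ((2 * x3) / 2 ^ (a 2 : ℕ)) := by ring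
        rw [e] at t1
        have := le_of_mul_le_mul_left t1 (p (a 3))
        rw [le_div_iff₀ (p _)] at this
        linarith
      have s2 : x3 ≤ 2 * 2 ^ (a' 2 : ℕ) * x4 := by
        have e : 2 ^ (a' 3 : ℕ) / 2 ^ (a' 2 : ℕ) * x3 =
            2 ^ (a' 3 : ℕ) * (x3 / 2 ^ (a' 2 : ℕ)) := by ring
        have e' : 2 * (2 ^ (a' 3 : ℕ) * x4) = 2 ^ (a' 3 : ℕ) * (2 * x4) := by ring
        rw [e, e'] at t2
        have := le_of_mul_le_mul_left t2 (p (a' 3))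
        rw [div_le_iff₀ (p _)] at this
        linarith
      have t : 2 ^ (a 2 : ℕ) * x4 ≤ (4 * 2 ^ (a' 2 : ℕ)) * x4 := by linarith
      exact le_of_mul_le_mul_right t hx4
    · intro a ha a' ha' hf hg
      have q1 := hq a ha.1
      have q2 := hq a' ha'.1
      obtain ⟨⟨hs, he⟩, hb, hc⟩ := ha
      obtain ⟨⟨hs', he'⟩, hb', hc'⟩ := ha'

      rw [q1] at he
      rw [q2] at he'
      have f2 : (a 2 : ℕ) = a' 2 := by rw [hf]
      rcases h2.lt_or_eq with hx2 | hx2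
      · rw [if_pos hx2, if_pos hx2] at hg
        have f3 : (a 3 : ℕ) = a' 3 := by rw [hg]
        rw [f3, f2] at he
        have hw : (2 : ℝ) ^ (a 0 : ℕ) = 2 ^ (a' 0 : ℕ) := eqn_mul hx2 (by linarith)
        have f0 := eqn_inj hw
        exact eqn_ext f0 (by omega) f2 f3
      · have hn : ¬ 0 < x2 := by rw [← hx2]; exact lt_irrefl _
        rw [if_neg hn, if_neg hn] at hg
        rw [← hx2, mul_zero, zero_add] at he he'
        have r1 : x1 = 2 ^ (a 3 : ℕ) * (x4 - x3 / 2 ^ (a 2 : ℕ)) := by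
          have : 2 ^ (a 3 : ℕ) / 2 ^ (a 2 : ℕ) * x3 = 2 ^ (a 3 : ℕ) * (x3 / 2 ^ (a 2 : ℕ)) := by ring
          rw [mul_sub]; linarith
        have r2 : x1 = 2 ^ (a' 3 : ℕ) * (x4 - x3 / 2 ^ (a' 2 : ℕ)) := by
          have : 2 ^ (a' 3 : ℕ) / 2 ^ (a' 2 : ℕ) * x3 = 2 ^ (a' 3 : ℕ) * (x3 / 2 ^ (a' 2 : ℕ)) := by ring
          rw [mul_sub]; linarith
        rcases h1.lt_or_eq with hx1 | hx1
        · rw [if_pos hx1, if_pos hx1] at hg
          have f0 : (a 0 : ℕ) = a' 0 := by rw [hg]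
          have hne : x4 - x3 / 2 ^ (a 2 : ℕ) ≠ 0 := by
            intro h0
            rw [h0, mul_zero] at r1
            linarith
          rw [← f2] at r2
          have f3 := eqn_inj (mul_right_cancel₀ hne (r1.symm.trans r2))
          exact eqn_ext f0 (by omega) f2 f3
        · exfalso
          rw [← hx1] at r1
          have z := (mul_eq_zero.1 r1.symm).resolve_left (p (a 3)).ne'
          refine e3 (a 2) (a 2).2 ⟨hx1.symm, hx2.symm, ?_⟩
          have : x3 / 2 ^ (a 2 : ℕ) = x4 := by linarith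
          rw [div_eq_iff (p _).ne'] at this
          linarith
  have hcov : Sol ⊆ (SA ∪ SB) ∪ (SC ∪ SD) := by
    intro a ha
    rcases le_or_gt (2 ^ (a 0 : ℕ) / 2 ^ (a 1 : ℕ) * x3) x1 with c1 | c1
    · left
      rcases le_or_gt (2 ^ (a 3 : ℕ) * x4) (2 ^ (a 0 : ℕ) * x2) with c2 | c2
      · left; exact ⟨ha, c1, c2⟩
      · right; exact ⟨ha, c1, c2⟩
    · right
      rcases le_or_gt (2 ^ (a 3 : ℕ) * x4) (2 ^ (a 0 : ℕ) * x2) with c2 | c2
      · left; exact ⟨ha, c1, c2⟩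
      · right; exact ⟨ha, c1, c2⟩
  have b1 := Set.ncard_le_ncard hcov (Set.toFinite _)
  have b2 := Set.ncard_union_le (SA ∪ SB) (SC ∪ SD)
  have b3 := Set.ncard_union_le SA SB
  have b4 := Set.ncard_union_le SC SD
  omega

end Pool.Agent.H74.GB
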