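import Mathlib
import Pool.Agent.H68.GeomHyp

/-!
The points on four edges of a tetrahedron.
-/

namespace Pool.Agent.H74.GB

open Pool.Agent.H68

/-- the point with coordinates `x y z` -/
noncomputable def pt3 (x y z : ℝ) : Pt 3 := (WithLp.equiv 2 (Fin 3 → ℝ)).symm ![x, y, z]

/-- the fourth barycentric coordinate -/
noncomputable def lst (x : Pt 3) : ℝ := 1 - x 0 - x 1 - x 2

/-- the points of the configuration: on the edges `12`, `23`, `34`, `41` of the tetrahedron -/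
noncomputable def cp (K : ℕ) : Fin 4 × Fin K → Pt 3 := fun i =>
  if i.1 = 0 then pt3 (2 ^ (i.2 : ℕ) / (2 ^ (i.2 : ℕ) + 1)) (1 / (2 ^ (i.2 : ℕ) + 1)) 0
  else if i.1 = 1 then pt3 0 (1 / (2 ^ (i.2 : ℕ) + 1)) (2 ^ (i.2 : ℕ) / (2 ^ (i.2 : ℕ) + 1))
  else if i.1 = 2 then pt3 0 0 (2 ^ (i.2 : ℕ) / (2 ^ (i.2 : ℕ) + 1))
  else pt3 (2 ^ (i.2 : ℕ) / (2 ^ (i.2 : ℕ) + 1)) 0 0

/-- the set of the four points of a tuple of exponents -/
def qs {K : ℕ} (a : Fin 4 → Fin K) : Finset (Fin 4 × Fin K) :=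
  Finset.univ.image (fun i => (i, a i))

/-- the tuples of exponents of the coplanar quadruples -/
def tq (K : ℕ) : Finset (Fin 4 → Fin K) :=
  Finset.univ.filter (fun a => (a 0 : ℕ) + a 2 = a 1 + a 3)

/-- the coplanar quadruples -/
def fq (K : ℕ) : Finset (Finset (Fin 4 × Fin K)) := (tq K).image qs

end Pool.Agent.H74.GB
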