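import Mathlib
import Pool.Agent.H74.GB.Dfs

/-!
Module GeoA (geometry of the configuration).

Paper proof (complete). `x 0`, `x 1`, `x 2`, `lst x` are affine functions of `x`; on the points
`cp K i` they are nonnegative, and for the four points `cp K (i, a i)` the affine function
`x 0 + 2^(a 0)/2^(a 1) * x 2 - 2^(a 0) * x 1 - 2^(a 3) * lst x` vanishes (for `i = 2` use
`2^(a 0)/2^(a 1) * 2^(a 2) = 2^(a 3)`; the fourth coordinates of `cp K (2, b)`, `cp K (3, b)` are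
`1 / (2^b + 1)`, those of `cp K (0, b)`, `cp K (1, b)` are `0`). The sets
`{x | 0 ≤ f x}`, `{x | f x = 0}` for affine `f` are convex, so they contain the convex hull
(`convexHull_min`). That is `hull_eqn`.
`not_mem_hull`: let `i = (k, b)` and suppose `cp K i = ∑ y_j cp K (j, a j)`, a convex combination over
the `j` with `(j, a j) ≠ i`. Two of the four coordinates of `cp K i` vanish, the other two are the ones
of edge `k`. For `k = 0` (the other cases are the same): coordinates `3` (`x 2`) and `4` (`lst`) vanish;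
the points with `j = 1, 2` have positive coordinate `3`, those with `j = 2, 3` have positive
coordinate `4`, so `y_1 = y_2 = y_3 = 0`, thus `y_0 = 1`, `(0, a 0) ≠ i` and `cp K i = cp K (0, a 0)`
which forces `2^b = 2^(a 0)`, `b = a 0`, a contradiction.
A convenient way: the set of `x` with `0 < x 2 + lst x` or `x = cp K (0, a 0)`.. is not convex, so use
the explicit finite combination (`Finset.mem_convexHull`, `mem_convexHull_image`, or
`convexHull_range..`), or: the function `x 2 + lst x` is affine, `≥ 0` on the hull; a point of the hull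
with value `0` is in the hull of the points with value `0`.
-/

namespace Pool.Agent.H74.GB

open Pool.Agent.H68

private theorem geoa_pt3_0 (x y z : ℝ) : (pt3 x y z) 0 = x := rfl

private theorem geoa_pt3_1 (x y z : ℝ) : (pt3 x y z) 1 = y := rfl

private theorem geoa_pt3_2 (x y z : ℝ) : (pt3 x y z) 2 = z := rfl

private theorem geoa_ext {x y : Pt 3} (h0 : x 0 = y 0) (h1 : x 1 = y 1) (h2 : x 2 = y 2) :
    x = y := by
  ext k
  fin_cases k
  · exact h0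
  · exact h1
  · exact h2

private theorem geoa_cp0 {K : ℕ} (b : Fin K) : cp K (0, b) =
    pt3 (2 ^ (b : ℕ) / (2 ^ (b : ℕ) + 1)) (1 / (2 ^ (b : ℕ) + 1)) 0 := by
  unfold cp; simp

private theorem geoa_cp1 {K : ℕ} (b : Fin K) : cp K (1, b) =
    pt3 0 (1 / (2 ^ (b : ℕ) + 1)) (2 ^ (b : ℕ) / (2 ^ (b : ℕ) + 1)) := by
  unfold cp; simp

private theorem geoa_cp2 {K : ℕ} (b : Fin K) : cp K (2, b) =
    pt3 0 0 (2 ^ (b : ℕ) / (2 ^ (b : ℕ) + 1)) := by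
  unfold cp; simp

private theorem geoa_cp3 {K : ℕ} (b : Fin K) : cp K (3, b) =
    pt3 (2 ^ (b : ℕ) / (2 ^ (b : ℕ) + 1)) 0 0 := by
  unfold cp; simp

private theorem geoa_pos (b : ℕ) : (0 : ℝ) < 2 ^ b := by positivity

private theorem geoa_sum (b : ℕ) : (2 : ℝ) ^ b / (2 ^ b + 1) + 1 / (2 ^ b + 1) = 1 := by
  have := geoa_pos b
  rw [← add_div]
  exact div_self (by positivity)

/-- the two coordinates which vanish on edge `k` -/
private noncomputable def geoa_g (k : Fin 4) (x : Pt 3) : ℝ :=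
  if k = 0 then x 2 + lst x else if k = 1 then x 0 + lst x else if k = 2 then x 0 + x 1
  else x 1 + x 2

private theorem geoa_lst_comb (x y : Pt 3) {s t : ℝ} (h : s + t = 1) :
    lst (s • x + t • y) = s * lst x + t * lst y := by
  unfold lst
  have e : ∀ k : Fin 3, (s • x + t • y) k = s * x k + t * y k := fun k => rfl
  rw [e 0, e 1, e 2]
  linear_combination (-1 : ℝ) * h

private theorem geoa_g_comb (k : Fin 4) (x y : Pt 3) {s t : ℝ} (h : s + t = 1) :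
    geoa_g k (s • x + t • y) = s * geoa_g k x + t * geoa_g k y := by
  have e : ∀ j : Fin 3, (s • x + t • y) j = s * x j + t * y j := fun j => rfl
  unfold geoa_g
  rw [geoa_lst_comb x y h, e 0, e 1, e 2]
  split_ifs <;> ring

private theorem geoa_self {K : ℕ} (k : Fin 4) (b : Fin K) : geoa_g k (cp K (k, b)) = 0 := by
  have h := geoa_sum (b : ℕ)
  fin_cases k
  · change geoa_g 0 (cp K (0, b)) = 0
    rw [geoa_cp0]
    simp only [geoa_g, lst, geoa_pt3_0, geoa_pt3_1, geoa_pt3_2, if_true]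
    linarith
  · change geoa_g 1 (cp K (1, b)) = 0
    rw [geoa_cp1]
    simp only [geoa_g, lst, geoa_pt3_0, geoa_pt3_1, geoa_pt3_2, if_true,
      show ((1 : Fin 4) = 0) = False by decide, if_false]
    linarith
  · change geoa_g 2 (cp K (2, b)) = 0
    rw [geoa_cp2]
    simp only [geoa_g, lst, geoa_pt3_0, geoa_pt3_1, geoa_pt3_2, if_true,
      show ((2 : Fin 4) = 0) = False by decide, show ((2 : Fin 4) = 1) = False by decide, if_false]
    norm_num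
  · change geoa_g 3 (cp K (3, b)) = 0
    rw [geoa_cp3]
    simp only [geoa_g, lst, geoa_pt3_0, geoa_pt3_1, geoa_pt3_2,
      show ((3 : Fin 4) = 0) = False by decide, show ((3 : Fin 4) = 1) = False by decide,
      show ((3 : Fin 4) = 2) = False by decide, if_false]
    norm_num

private theorem geoa_coord {K : ℕ} (j : Fin 4) (b : Fin K) :
    0 ≤ (cp K (j, b)) 0 ∧ 0 ≤ (cp K (j, b)) 1 ∧ 0 ≤ (cp K (j, b)) 2 ∧ 0 ≤ lst (cp K (j, b)) ∧
    ((j = 0 ∨ j = 3) → 0 < (cp K (j, b)) 0) ∧ ((j = 0 ∨ j = 1) → 0 < (cp K (j, b)) 1) ∧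
    ((j = 1 ∨ j = 2) → 0 < (cp K (j, b)) 2) ∧ ((j = 2 ∨ j = 3) → 0 < lst (cp K (j, b))) := by
  have h := geoa_sum (b : ℕ)
  have hp := geoa_pos (b : ℕ)
  have h1 : (0 : ℝ) < 2 ^ (b : ℕ) / (2 ^ (b : ℕ) + 1) := by positivity
  have h2 : (0 : ℝ) < 1 / (2 ^ (b : ℕ) + 1) := by positivity
  fin_cases j
  · change 0 ≤ (cp K (0, b)) 0 ∧ 0 ≤ (cp K (0, b)) 1 ∧ 0 ≤ (cp K (0, b)) 2 ∧ 0 ≤ lst (cp K (0, b)) ∧
      (((0 : Fin 4) = 0 ∨ (0 : Fin 4) = 3) → 0 < (cp K (0, b)) 0) ∧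
      (((0 : Fin 4) = 0 ∨ (0 : Fin 4) = 1) → 0 < (cp K (0, b)) 1) ∧
      (((0 : Fin 4) = 1 ∨ (0 : Fin 4) = 2) → 0 < (cp K (0, b)) 2) ∧
      (((0 : Fin 4) = 2 ∨ (0 : Fin 4) = 3) → 0 < lst (cp K (0, b)))
    rw [geoa_cp0]
    simp only [lst, geoa_pt3_0, geoa_pt3_1, geoa_pt3_2]
    refine ⟨h1.le, h2.le, le_rfl, by linarith, fun _ => h1, fun _ => h2, fun hc => ?_, fun hc => ?_⟩
    · exact absurd hc (by decide)
    · exact absurd hc (by decide)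
  · change 0 ≤ (cp K (1, b)) 0 ∧ 0 ≤ (cp K (1, b)) 1 ∧ 0 ≤ (cp K (1, b)) 2 ∧ 0 ≤ lst (cp K (1, b)) ∧
      (((1 : Fin 4) = 0 ∨ (1 : Fin 4) = 3) → 0 < (cp K (1, b)) 0) ∧
      (((1 : Fin 4) = 0 ∨ (1 : Fin 4) = 1) → 0 < (cp K (1, b)) 1) ∧
      (((1 : Fin 4) = 1 ∨ (1 : Fin 4) = 2) → 0 < (cp K (1, b)) 2) ∧
      (((1 : Fin 4) = 2 ∨ (1 : Fin 4) = 3) → 0 < lst (cp K (1, b)))
    rw [geoa_cp1]
    simp only [lst, geoa_pt3_0, geoa_pt3_1, geoa_pt3_2]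
    refine ⟨le_rfl, h2.le, h1.le, by linarith, fun hc => ?_, fun _ => h2, fun _ => h1, fun hc => ?_⟩
    · exact absurd hc (by decide)
    · exact absurd hc (by decide)
  · change 0 ≤ (cp K (2, b)) 0 ∧ 0 ≤ (cp K (2, b)) 1 ∧ 0 ≤ (cp K (2, b)) 2 ∧ 0 ≤ lst (cp K (2, b)) ∧
      (((2 : Fin 4) = 0 ∨ (2 : Fin 4) = 3) → 0 < (cp K (2, b)) 0) ∧
      (((2 : Fin 4) = 0 ∨ (2 : Fin 4) = 1) → 0 < (cp K (2, b)) 1) ∧
      (((2 : Fin 4) = 1 ∨ (2 : Fin 4) = 2) → 0 < (cp K (2, b)) 2) ∧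
      (((2 : Fin 4) = 2 ∨ (2 : Fin 4) = 3) → 0 < lst (cp K (2, b)))
    rw [geoa_cp2]
    simp only [lst, geoa_pt3_0, geoa_pt3_1, geoa_pt3_2]
    refine ⟨le_rfl, le_rfl, h1.le, by linarith, fun hc => ?_, fun hc => ?_, fun _ => h1,
      fun _ => by linarith⟩
    · exact absurd hc (by decide)
    · exact absurd hc (by decide)
  · change 0 ≤ (cp K (3, b)) 0 ∧ 0 ≤ (cp K (3, b)) 1 ∧ 0 ≤ (cp K (3, b)) 2 ∧ 0 ≤ lst (cp K (3, b)) ∧
      (((3 : Fin 4) = 0 ∨ (3 : Fin 4) = 3) → 0 < (cp K (3, b)) 0) ∧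
      (((3 : Fin 4) = 0 ∨ (3 : Fin 4) = 1) → 0 < (cp K (3, b)) 1) ∧
      (((3 : Fin 4) = 1 ∨ (3 : Fin 4) = 2) → 0 < (cp K (3, b)) 2) ∧
      (((3 : Fin 4) = 2 ∨ (3 : Fin 4) = 3) → 0 < lst (cp K (3, b)))
    rw [geoa_cp3]
    simp only [lst, geoa_pt3_0, geoa_pt3_1, geoa_pt3_2]
    refine ⟨h1.le, le_rfl, le_rfl, by linarith, fun _ => h1, fun hc => ?_, fun hc => ?_,
      fun _ => by linarith⟩
    · exact absurd hc (by decide)
    · exact absurd hc (by decide)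

private theorem geoa_ne {K : ℕ} {j k : Fin 4} (h : j ≠ k) (b : Fin K) :
    0 < geoa_g k (cp K (j, b)) := by
  obtain ⟨h0, h1, h2, h3, p0, p1, p2, p3⟩ := geoa_coord j b
  unfold geoa_g
  split_ifs with hk hk hk
  · subst hk
    rcases (show (j = 1 ∨ j = 2) ∨ j = 3 by revert h; fin_cases j <;> simp) with hj | hj
    · linarith [p2 hj]
    · linarith [p3 (Or.inr hj)]
  · subst hk
    rcases (show (j = 0 ∨ j = 3) ∨ j = 2 by revert h; fin_cases j <;> simp) with hj | hj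
    · linarith [p0 hj]
    · linarith [p3 (Or.inl hj)]
  · subst hk
    rcases (show (j = 0 ∨ j = 3) ∨ j = 1 by revert h; fin_cases j <;> simp) with hj | hj
    · linarith [p0 hj]
    · linarith [p1 (Or.inr hj)]
  · have hk3 : k = 3 := by
      fin_cases k
      · exact absurd rfl (by assumption)
      · exact absurd rfl (by assumption)
      · exact absurd rfl (by assumption)
      · rfl
    subst hk3
    rcases (show (j = 0 ∨ j = 1) ∨ j = 2 by revert h; fin_cases j <;> simp) with hj | hj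
    · linarith [p1 hj]
    · linarith [p2 (Or.inr hj)]

private theorem geoa_inj_real {a b : ℕ}
    (h : (2 : ℝ) ^ a / (2 ^ a + 1) = 2 ^ b / (2 ^ b + 1)) : a = b := by
  have ha := geoa_pos a
  have hb := geoa_pos b
  rw [div_eq_div_iff (by positivity) (by positivity)] at h
  have h' : (2 : ℝ) ^ a = 2 ^ b := by linarith
  exact pow_right_injective₀ (by norm_num) (by norm_num) h'

private theorem geoa_inj {K : ℕ} (k : Fin 4) {a b : Fin K} (h : cp K (k, a) = cp K (k, b)) :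
    a = b := by
  refine Fin.ext (geoa_inj_real ?_)
  fin_cases k
  · change cp K (0, a) = cp K (0, b) at h
    rw [geoa_cp0, geoa_cp0] at h
    exact congrArg (fun x : Pt 3 => x 0) h
  · change cp K (1, a) = cp K (1, b) at h
    rw [geoa_cp1, geoa_cp1] at h
    exact congrArg (fun x : Pt 3 => x 2) h
  · change cp K (2, a) = cp K (2, b) at h
    rw [geoa_cp2, geoa_cp2] at h
    exact congrArg (fun x : Pt 3 => x 2) h
  · change cp K (3, a) = cp K (3, b) at h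
    rw [geoa_cp3, geoa_cp3] at h
    exact congrArg (fun x : Pt 3 => x 0) h

private theorem geoa_convex (k : Fin 4) (Q : Pt 3 → Prop) (hQ : ∀ x y, Q x → Q y → x = y) :
    Convex ℝ {x : Pt 3 | 0 ≤ geoa_g k x ∧ (geoa_g k x = 0 → Q x)} := by
  intro x hx y hy s t hs ht hst
  obtain ⟨hx1, hx2⟩ := hx
  obtain ⟨hy1, hy2⟩ := hy
  have e := geoa_g_comb k x y hst
  have p1 : 0 ≤ s * geoa_g k x := mul_nonneg hs hx1
  have p2 : 0 ≤ t * geoa_g k y := mul_nonneg ht hy1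
  refine ⟨by rw [e]; linarith, fun h0 => ?_⟩
  rw [e] at h0
  have q1 : s * geoa_g k x = 0 := by linarith
  have q2 : t * geoa_g k y = 0 := by linarith
  rcases mul_eq_zero.1 q1 with hs0 | hgx
  · have ht1 : t = 1 := by linarith
    rw [ht1, one_mul] at q2
    rw [hs0, ht1, zero_smul, one_smul, zero_add]
    exact hy2 q2
  · rcases mul_eq_zero.1 q2 with ht0 | hgy
    · have hs1 : s = 1 := by linarith
      rw [ht0, hs1, zero_smul, one_smul, add_zero]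
      exact hx2 hgx
    · have hxy := hQ x y (hx2 hgx) (hy2 hgy)
      rw [← hxy, ← add_smul, hst, one_smul]
      exact hx2 hgx

theorem hull_eqn {K : ℕ} (a : Fin 4 → Fin K) (ha : (a 0 : ℕ) + a 2 = a 1 + a 3) (x : Pt 3)
    (hx : x ∈ convexHull ℝ (cp K '' (qs a : Set (Fin 4 × Fin K)))) :
    0 ≤ x 0 ∧ 0 ≤ x 1 ∧ 0 ≤ x 2 ∧ 0 ≤ lst x ∧
      x 0 + 2 ^ (a 0 : ℕ) / 2 ^ (a 1 : ℕ) * x 2 = 2 ^ (a 0 : ℕ) * x 1 + 2 ^ (a 3 : ℕ) * lst x := by
  have hconv : Convex ℝ {x : Pt 3 | 0 ≤ x 0 ∧ 0 ≤ x 1 ∧ 0 ≤ x 2 ∧ 0 ≤ lst x ∧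
      x 0 + 2 ^ (a 0 : ℕ) / 2 ^ (a 1 : ℕ) * x 2 =
        2 ^ (a 0 : ℕ) * x 1 + 2 ^ (a 3 : ℕ) * lst x} := by
    intro x hx y hy s t hs ht hst
    obtain ⟨x0, x1, x2, x3, x4⟩ := hx
    obtain ⟨y0, y1, y2, y3, y4⟩ := hy
    have e : ∀ k : Fin 3, (s • x + t • y) k = s * x k + t * y k := fun k => rfl
    have el := geoa_lst_comb x y hst
    refine ⟨?_, ?_, ?_, ?_, ?_⟩
    · rw [e]; exact add_nonneg (mul_nonneg hs x0) (mul_nonneg ht y0)
    · rw [e]; exact add_nonneg (mul_nonneg hs x1) (mul_nonneg ht y1)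
    · rw [e]; exact add_nonneg (mul_nonneg hs x2) (mul_nonneg ht y2)
    · rw [el]; exact add_nonneg (mul_nonneg hs x3) (mul_nonneg ht y3)
    · rw [e, e, e, el]
      linear_combination s * x4 + t * y4
  refine convexHull_min ?_ hconv hx
  rintro _ ⟨i, hi, rfl⟩
  unfold qs at hi
  rw [Finset.mem_coe, Finset.mem_image] at hi
  obtain ⟨j, _, rfl⟩ := hi
  obtain ⟨h0, h1, h2, h3, _⟩ := geoa_coord j (a j)
  refine ⟨h0, h1, h2, h3, ?_⟩
  have q0 := geoa_pos (a 0 : ℕ)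
  have q1 := geoa_pos (a 1 : ℕ)
  have q2 := geoa_pos (a 2 : ℕ)
  have q3 := geoa_pos (a 3 : ℕ)
  have hq : (2 : ℝ) ^ (a 0 : ℕ) * 2 ^ (a 2 : ℕ) = 2 ^ (a 1 : ℕ) * 2 ^ (a 3 : ℕ) := by
    rw [← pow_add, ← pow_add, ha]
  fin_cases j
  · change (cp K (0, a 0)) 0 + 2 ^ (a 0 : ℕ) / 2 ^ (a 1 : ℕ) * (cp K (0, a 0)) 2 =
      2 ^ (a 0 : ℕ) * (cp K (0, a 0)) 1 + 2 ^ (a 3 : ℕ) * lst (cp K (0, a 0))
    rw [geoa_cp0]
    simp only [lst, geoa_pt3_0, geoa_pt3_1, geoa_pt3_2]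
    field_simp
    ring
  · change (cp K (1, a 1)) 0 + 2 ^ (a 0 : ℕ) / 2 ^ (a 1 : ℕ) * (cp K (1, a 1)) 2 =
      2 ^ (a 0 : ℕ) * (cp K (1, a 1)) 1 + 2 ^ (a 3 : ℕ) * lst (cp K (1, a 1))
    rw [geoa_cp1]
    simp only [lst, geoa_pt3_0, geoa_pt3_1, geoa_pt3_2]
    field_simp
    ring
  · change (cp K (2, a 2)) 0 + 2 ^ (a 0 : ℕ) / 2 ^ (a 1 : ℕ) * (cp K (2, a 2)) 2 =
      2 ^ (a 0 : ℕ) * (cp K (2, a 2)) 1 + 2 ^ (a 3 : ℕ) * lst (cp K (2, a 2))
    rw [geoa_cp2]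
    simp only [lst, geoa_pt3_0, geoa_pt3_1, geoa_pt3_2]
    have e1 : (2 : ℝ) ^ (a 0 : ℕ) / 2 ^ (a 1 : ℕ) * (2 ^ (a 2 : ℕ) / (2 ^ (a 2 : ℕ) + 1)) =
        2 ^ (a 3 : ℕ) * (1 / (2 ^ (a 2 : ℕ) + 1)) := by
      rw [div_mul_div_comm, hq, mul_one_div, div_eq_div_iff (by positivity) (by positivity)]
      ring
    have e2 := geoa_sum (a 2 : ℕ)
    have e3 : (1 : ℝ) - 0 - 0 - 2 ^ (a 2 : ℕ) / (2 ^ (a 2 : ℕ) + 1) = 1 / (2 ^ (a 2 : ℕ) + 1) := by
      linarith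
    rw [e3, e1]
    ring
  · change (cp K (3, a 3)) 0 + 2 ^ (a 0 : ℕ) / 2 ^ (a 1 : ℕ) * (cp K (3, a 3)) 2 =
      2 ^ (a 0 : ℕ) * (cp K (3, a 3)) 1 + 2 ^ (a 3 : ℕ) * lst (cp K (3, a 3))
    rw [geoa_cp3]
    simp only [lst, geoa_pt3_0, geoa_pt3_1, geoa_pt3_2]
    field_simp
    ring

theorem not_mem_hull {K : ℕ} (i : Fin 4 × Fin K) (a : Fin 4 → Fin K) :
    cp K i ∉ convexHull ℝ (cp K '' (((qs a).erase i : Finset (Fin 4 × Fin K)) :
      Set (Fin 4 × Fin K))) := by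
  obtain ⟨k, b⟩ := i
  intro hmem
  have hconv := geoa_convex k (fun x => x = cp K (k, a k) ∧ (k, a k) ≠ (k, b))
    (fun x y hx hy => hx.1.trans hy.1.symm)
  have hsub : (cp K '' (((qs a).erase (k, b) : Finset (Fin 4 × Fin K)) :
      Set (Fin 4 × Fin K))) ⊆
      {x : Pt 3 | 0 ≤ geoa_g k x ∧
        (geoa_g k x = 0 → x = cp K (k, a k) ∧ (k, a k) ≠ (k, b))} := by
    rintro _ ⟨i, hi, rfl⟩
    rw [Finset.mem_coe, Finset.mem_erase] at hi
    obtain ⟨hne, hi⟩ := hi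
    unfold qs at hi
    rw [Finset.mem_image] at hi
    obtain ⟨j, _, rfl⟩ := hi
    by_cases hjk : j = k
    · subst hjk
      exact ⟨(geoa_self j (a j)).ge, fun _ => ⟨rfl, hne⟩⟩
    · have := geoa_ne hjk (a j)
      exact ⟨this.le, fun h0 => absurd h0 this.ne'⟩
  have h := convexHull_min hsub hconv hmem
  obtain ⟨_, h2⟩ := h
  obtain ⟨h3, h4⟩ := h2 (geoa_self k b)
  exact h4 (by rw [geoa_inj k h3])

/-- the exceptional cases of the exponential equation are the points of the configuration -/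
theorem exceptional {K : ℕ} (x : Pt 3) (hx : ∀ i, x ≠ cp K i) :
    (∀ a : ℕ, a < K → ¬ (x 2 = 0 ∧ lst x = 0 ∧ x 0 = 2 ^ a * x 1)) ∧
    (∀ a : ℕ, a < K → ¬ (x 0 = 0 ∧ lst x = 0 ∧ x 2 = 2 ^ a * x 1)) ∧
    (∀ a : ℕ, a < K → ¬ (x 0 = 0 ∧ x 1 = 0 ∧ x 2 = 2 ^ a * lst x)) ∧
    (∀ a : ℕ, a < K → ¬ (x 1 = 0 ∧ x 2 = 0 ∧ x 0 = 2 ^ a * lst x)) := by
  refine ⟨fun a ha h => ?_, fun a ha h => ?_, fun a ha h => ?_, fun a ha h => ?_⟩
  · obtain ⟨h1, h2, h3⟩ := h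
    have hp := geoa_pos a
    unfold lst at h2
    have e1 : x 1 = 1 / (2 ^ a + 1) := by
      rw [eq_div_iff (by positivity)]
      rw [h3, h1] at h2
      linarith
    refine hx (0, ⟨a, ha⟩) (geoa_ext ?_ ?_ ?_) <;> rw [geoa_cp0]
    · rw [geoa_pt3_0, h3, e1, mul_one_div]
    · rw [geoa_pt3_1, e1]
    · rw [geoa_pt3_2, h1]
  · obtain ⟨h1, h2, h3⟩ := h
    have hp := geoa_pos a
    unfold lst at h2
    have e1 : x 1 = 1 / (2 ^ a + 1) := by
      rw [eq_div_iff (by positivity)]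
      rw [h3, h1] at h2
      linarith
    refine hx (1, ⟨a, ha⟩) (geoa_ext ?_ ?_ ?_) <;> rw [geoa_cp1]
    · rw [geoa_pt3_0, h1]
    · rw [geoa_pt3_1, e1]
    · rw [geoa_pt3_2, h3, e1, mul_one_div]
  · obtain ⟨h1, h2, h3⟩ := h
    have hp := geoa_pos a
    unfold lst at h3
    have e1 : x 2 = 2 ^ a / (2 ^ a + 1) := by
      rw [eq_div_iff (by positivity)]
      rw [h1, h2] at h3
      linarith
    refine hx (2, ⟨a, ha⟩) (geoa_ext ?_ ?_ ?_) <;> rw [geoa_cp2]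
    · rw [geoa_pt3_0, h1]
    · rw [geoa_pt3_1, h2]
    · rw [geoa_pt3_2, e1]
  · obtain ⟨h1, h2, h3⟩ := h
    have hp := geoa_pos a
    unfold lst at h3
    have e1 : x 0 = 2 ^ a / (2 ^ a + 1) := by
      rw [eq_div_iff (by positivity)]
      rw [h1, h2] at h3
      linarith
    refine hx (3, ⟨a, ha⟩) (geoa_ext ?_ ?_ ?_) <;> rw [geoa_cp3]
    · rw [geoa_pt3_0, e1]
    · rw [geoa_pt3_1, h1]
    · rw [geoa_pt3_2, h2]

end Pool.Agent.H74.GB
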