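import Mathlib
import Pool.Agent.H74.GB.Eqn
import Pool.Agent.H74.GB.GeoA

/-!
Module GeoB (counting in the configuration).

Paper proof (complete). `qs` is injective. `card_of_fq`: each `qs a` has four elements.
`card_fq_ge`: for `K = 4 κ`, the tuples with `a 0 ∈ [κ, 2κ)`, `a 1 ∈ [0, κ)`, `a 2 ∈ [0, κ)` and
`a 3 = a 0 + a 2 - a 1 ∈ [0, 4κ)` are in `tq`; there are `κ^3` of them.
`card_hit`: if `x` is no point of the configuration, apply `hull_eqn`: if some `Q` is in the set then the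
four coordinates of `x` are nonnegative, and all `a ∈ tq K` with `x ∈ hull (qs a)` satisfy the equation
of `card_sol`, whose exceptional cases are excluded by `exceptional`; `Q = qs a` is the image of `a`
(`Set.ncard_image_le`).
`card_star`: `(k, b) ∈ qs a` means `a k = b`; the tuples of `tq K` with `a k = b` are determined by two
further entries (for `k = 0`: `a 1`, `a 2`, and `a 3 = b + a 2 - a 1`; similarly for the others).
-/

namespace Pool.Agent.H74.GB

open Pool.Agent.H68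

private lemma geoB_mem {K : ℕ} (a : Fin 4 → Fin K) (k : Fin 4) (b : Fin K) :
    (k, b) ∈ qs a ↔ a k = b := by
  unfold qs
  simp only [Finset.mem_image, Finset.mem_univ, true_and, Prod.mk.injEq]
  constructor
  · rintro ⟨i, rfl, h⟩
    exact h
  · intro h
    exact ⟨k, rfl, h⟩

private lemma geoB_inj {K : ℕ} :
    Function.Injective (qs : (Fin 4 → Fin K) → Finset (Fin 4 × Fin K)) := by
  intro a a' h
  funext k
  have h1 : (k, a k) ∈ qs a' := by
    rw [← h]
    exact (geoB_mem a k _).2 rfl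
  exact ((geoB_mem a' k _).1 h1).symm

private lemma geoB_ext {K : ℕ} {a a' : Fin 4 → Fin K} (h0 : (a 0 : ℕ) = a' 0)
    (h1 : (a 1 : ℕ) = a' 1) (h2 : (a 2 : ℕ) = a' 2) (h3 : (a 3 : ℕ) = a' 3) : a = a' := by
  funext i
  apply Fin.ext
  fin_cases i
  · exact h0
  · exact h1
  · exact h2
  · exact h3

theorem card_of_fq {K : ℕ} (Q : Finset (Fin 4 × Fin K)) (hQ : Q ∈ fq K) : Q.card = 4 := by
  obtain ⟨a, _, rfl⟩ := Finset.mem_image.1 hQ
  unfold qs
  rw [Finset.card_image_of_injective _ (fun i j h => (Prod.mk.inj h).1)]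
  simp

theorem card_fq_ge (κ : ℕ) : κ ^ 3 ≤ (fq (4 * κ)).card := by
  unfold fq
  rw [Finset.card_image_of_injective _ geoB_inj]
  have key : (Finset.univ : Finset (Fin κ × Fin κ × Fin κ)).card ≤ (tq (4 * κ)).card := by
    apply Finset.card_le_card_of_injOn (fun t => ![⟨κ + t.1, by have := t.1.2; omega⟩,
      ⟨t.2.1, by have := t.2.1.2; omega⟩, ⟨t.2.2, by have := t.2.2.2; omega⟩,
      ⟨κ + t.1 + t.2.2 - t.2.1, by have := t.1.2; have := t.2.2.2; omega⟩])
    · intro t _
      have h1 := t.2.1.2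
      simp only [tq, Finset.coe_filter, Finset.mem_univ, true_and, Set.mem_ofPred_eq]
      simp only [Matrix.cons_val_zero, Matrix.cons_val_one, Matrix.cons_val]
      omega
    · intro t _ t' _ h
      have e0 := congrArg (fun f => ((f 0 : Fin (4 * κ)) : ℕ)) h
      have e1 := congrArg (fun f => ((f 1 : Fin (4 * κ)) : ℕ)) h
      have e2 := congrArg (fun f => ((f 2 : Fin (4 * κ)) : ℕ)) h
      simp only [Matrix.cons_val_zero, Matrix.cons_val_one, Matrix.cons_val] at e0 e1 e2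
      exact Prod.ext (Fin.ext (by omega)) (Prod.ext (Fin.ext e1) (Fin.ext e2))
  rw [Finset.card_univ, Fintype.card_prod, Fintype.card_prod, Fintype.card_fin] at key
  calc κ ^ 3 = κ * (κ * κ) := by ring
    _ ≤ _ := key

theorem card_hit {K : ℕ} (x : Pt 3) (hx : ∀ i, x ≠ cp K i) :
    {Q : Finset (Fin 4 × Fin K) | Q ∈ fq K ∧
      x ∈ convexHull ℝ (cp K '' (Q : Set (Fin 4 × Fin K)))}.ncard ≤ 12 * K := by
  classical
  rcases Set.eq_empty_or_nonempty {Q : Finset (Fin 4 × Fin K) | Q ∈ fq K ∧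
      x ∈ convexHull ℝ (cp K '' (Q : Set (Fin 4 × Fin K)))} with hS | ⟨Q0, hQ0, hx0⟩
  · rw [hS, Set.ncard_empty]
    exact Nat.zero_le _
  · obtain ⟨a0, ha0, rfl⟩ := Finset.mem_image.1 hQ0
    have ha0' : (a0 0 : ℕ) + a0 2 = a0 1 + a0 3 := (Finset.mem_filter.1 ha0).2
    obtain ⟨n0, n1, n2, n3, -⟩ := hull_eqn a0 ha0' x hx0
    obtain ⟨e1, e2, e3, e4⟩ := exceptional (K := K) x hx
    have hsol := card_sol K (x 0) (x 1) (x 2) (lst x) n0 n1 n2 n3 e1 e2 e3 e4
    refine le_trans ?_ hsol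
    refine le_trans (Set.ncard_le_ncard ?_ ((Set.toFinite _).image qs))
      (Set.ncard_image_le (Set.toFinite _))
    rintro Q ⟨hQ, hxQ⟩
    obtain ⟨a, ha, rfl⟩ := Finset.mem_image.1 hQ
    have ha' : (a 0 : ℕ) + a 2 = a 1 + a 3 := (Finset.mem_filter.1 ha).2
    exact ⟨a, ⟨ha', (hull_eqn a ha' x hxQ).2.2.2.2⟩, rfl⟩

theorem card_star {K : ℕ} (i : Fin 4 × Fin K) :
    {Q : Finset (Fin 4 × Fin K) | Q ∈ fq K ∧ i ∈ Q}.ncard ≤ K ^ 2 := by
  classical
  obtain ⟨k, b⟩ := i
  have hcov : {Q : Finset (Fin 4 × Fin K) | Q ∈ fq K ∧ (k, b) ∈ Q} ⊆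
      qs '' {a : Fin 4 → Fin K | (a 0 : ℕ) + a 2 = a 1 + a 3 ∧ a k = b} := by
    rintro Q ⟨hQ, hk⟩
    obtain ⟨a, ha, rfl⟩ := Finset.mem_image.1 hQ
    exact ⟨a, ⟨(Finset.mem_filter.1 ha).2, (geoB_mem a k b).1 hk⟩, rfl⟩
  refine le_trans (Set.ncard_le_ncard hcov ((Set.toFinite _).image qs)) ?_
  refine le_trans (Set.ncard_image_le (Set.toFinite _)) ?_
  have key : {a : Fin 4 → Fin K | (a 0 : ℕ) + a 2 = a 1 + a 3 ∧ a k = b}.ncard ≤
      ((Finset.univ : Finset (Fin K × Fin K)) : Set (Fin K × Fin K)).ncard := by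
    apply Set.ncard_le_ncard_of_injOn
      (fun a => (a (if k = 0 then 1 else 0), a (if k = 0 ∨ k = 1 then 2 else 1)))
    · intro a _
      exact Finset.mem_coe.2 (Finset.mem_univ _)
    · rintro a ⟨ha, hk⟩ a' ⟨ha', hk'⟩ h
      have hkk : (a k : ℕ) = a' k := by rw [hk, hk']
      have e1 := congrArg (fun t : Fin K × Fin K => (t.1 : ℕ)) h
      have e2 := congrArg (fun t : Fin K × Fin K => (t.2 : ℕ)) h
      clear h hk hk'
      fin_cases k
      · simp at hkk e1 e2
        exact geoB_ext (by omega) (by omega) (by omega) (by omega)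
      · simp at hkk e1 e2
        exact geoB_ext (by omega) (by omega) (by omega) (by omega)
      · simp at hkk e1 e2
        exact geoB_ext (by omega) (by omega) (by omega) (by omega)
      · simp at hkk e1 e2
        exact geoB_ext (by omega) (by omega) (by omega) (by omega)
  rw [Set.ncard_coe_finset, Finset.card_univ, Fintype.card_prod, Fintype.card_fin] at key
  calc _ ≤ K * K := key
    _ = K ^ 2 := by ring

end Pool.Agent.H74.GB
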