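import Mathlib
import Pool.Agent.H68.GeomHyp

/-!
Module Semi: from an arbitrary configuration of points to one in general position, without
increasing the maximal number of simplices with a common point (upper semicontinuity).

Paper proof (complete). Suppose no `G` as wanted exists. For every `k : ℕ` there is a generic
configuration `v_k` (`GP`) with `dist (v_k i) (v i) ≤ 1/(k+1)` for all `i` (`dense_GP`). Apply the
assumption to `G_k = mkHyp hd le_rfl v_k _ F hF` (`mkHyp_card_V`, `mkHyp_card_E`): there is a `0`-flat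
`L_k` with `T < numMet G_k L_k`; a `0`-flat is a single point `x_k`. By `mkHyp_numMet` the set
`H_k = {e ∈ F | x_k ∈ convexHull (v_k '' e)}` has more than `T` elements. Since `F` has finitely many
subsets there is `H ⊆ F` with `H_k = H` for infinitely many `k` (pigeonhole,
`Filter.frequently` / `Finite.exists_infinite_fiber`), so there is a strictly increasing `φ` with
`H_{φ k} = H` for all `k`; `H` is nonempty, so the `x_{φ k}` lie in a bounded set and a subsequence
converges to some `x`. Let `e ∈ H`. `x_k = ∑ y_i v_k(i)` (convex combination, `i ∈ e`), and the point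
`∑ y_i v(i)` lies in `convexHull (v '' e)` and has distance at most `1/(k+1)` from `x_k`. So
`Metric.infDist x_k (convexHull (v '' e)) ≤ 1/(k+1)`, and in the limit `infDist x (..) = 0`; the
convex hull of a finite set is compact, hence closed, so `x ∈ convexHull (v '' e)`. Thus `H` is
contained in the set of `hT` for `x` and `T < H.card ≤ T`, a contradiction.
-/

namespace Pool.Agent.H74.GB

open Pool.Agent.H68

/-- the convex hulls of two close configurations are close -/
theorem exists_close {d n : ℕ} (v w : Fin n → Pt d) (η : ℝ) (hη : ∀ i, dist (v i) (w i) ≤ η)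
    (e : Finset (Fin n)) (x : Pt d) (hx : x ∈ convexHull ℝ (v '' (e : Set (Fin n)))) :
    ∃ y ∈ convexHull ℝ (w '' (e : Set (Fin n))), dist x y ≤ η := by
  have hC : Convex ℝ {z : Pt d | ∃ y ∈ convexHull ℝ (w '' (e : Set (Fin n))), dist z y ≤ η} := by
    intro z hz z' hz' a b ha hb hab
    obtain ⟨y, hy, hzy⟩ := hz
    obtain ⟨y', hy', hzy'⟩ := hz'
    refine ⟨a • y + b • y', (convex_convexHull ℝ _) hy hy' ha hb hab, ?_⟩
    rw [dist_eq_norm] at hzy hzy' ⊢
    have h1 : a • z + b • z' - (a • y + b • y') = a • (z - y) + b • (z' - y') := by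
      rw [smul_sub, smul_sub]
      abel
    rw [h1]
    calc ‖a • (z - y) + b • (z' - y')‖ ≤ ‖a • (z - y)‖ + ‖b • (z' - y')‖ := norm_add_le _ _
      _ = a * ‖z - y‖ + b * ‖z' - y'‖ := by
          rw [norm_smul, norm_smul, Real.norm_of_nonneg ha, Real.norm_of_nonneg hb]
      _ ≤ a * η + b * η := by gcongr
      _ = η := by rw [← add_mul, hab, one_mul]
  have hsub : v '' (e : Set (Fin n)) ⊆
      {z : Pt d | ∃ y ∈ convexHull ℝ (w '' (e : Set (Fin n))), dist z y ≤ η} := by
    rintro _ ⟨i, hi, rfl⟩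
    exact ⟨w i, subset_convexHull ℝ _ ⟨i, hi, rfl⟩, hη i⟩
  exact convexHull_min hsub hC hx

private lemma Semi_seq {d n T : ℕ} (hd : 1 ≤ d) (v : Fin n → Pt d)
    (F : Finset (Finset (Fin n))) (hF : ∀ e ∈ F, e.card = d + 1)
    (hno : ∀ G : GeomHyp d (d + 1), G.V.card = n → G.E.card = F.card →
      ∃ L : AffineSubspace ℝ (Pt d), IsFlat 0 L ∧ T < numMet G L) (k : ℕ) :
    ∃ (w : Fin n → Pt d) (x : Pt d), (∀ i, dist (w i) (v i) ≤ 1 / ((k : ℝ) + 1)) ∧
      ∃ H ⊆ F, T < H.card ∧ ∀ e ∈ F, (e ∈ H ↔ x ∈ convexHull ℝ (w '' (e : Set (Fin n)))) := by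
  classical
  have hpos : (0 : ℝ) < 1 / ((k : ℝ) + 1) := by positivity
  obtain ⟨w, hw, hvw⟩ := (dense_GP d n).exists_dist_lt v hpos
  obtain ⟨L, ⟨⟨x, hx⟩, hfin⟩, hlt⟩ := hno (mkHyp hd le_rfl w hw F hF) (mkHyp_card_V ..)
    (mkHyp_card_E ..)
  have hdir : L.direction = ⊥ := Submodule.finrank_eq_zero.1 hfin
  have hset : (L : Set (Pt d)) = {x} := by
    ext y
    constructor
    · intro hy
      have h1 := AffineSubspace.vsub_mem_direction hy hx
      rw [hdir, Submodule.mem_bot, vsub_eq_sub, sub_eq_zero] at h1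
      exact h1
    · rintro rfl
      exact hx
  refine ⟨w, x, fun i => ?_, F.filter (fun e => MeetsIdx w L e), Finset.filter_subset _ _, ?_,
    fun e he => ?_⟩
  · have := (dist_pi_lt_iff hpos).1 hvw i
    rw [dist_comm]
    exact this.le
  · rw [mkHyp_numMet] at hlt
    exact hlt
  · rw [Finset.mem_filter]
    unfold MeetsIdx
    rw [hset, Set.singleton_inter_nonempty]
    exact ⟨fun h => h.2, fun h => ⟨he, h⟩⟩

theorem exists_generic {d n T : ℕ} (hd : 1 ≤ d) (v : Fin n → Pt d)
    (F : Finset (Finset (Fin n))) (hF : ∀ e ∈ F, e.card = d + 1)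
    (hT : ∀ x : Pt d,
      {e : Finset (Fin n) | e ∈ F ∧ x ∈ convexHull ℝ (v '' (e : Set (Fin n)))}.ncard ≤ T) :
    ∃ G : GeomHyp d (d + 1), G.V.card = n ∧ G.E.card = F.card ∧
      ∀ L : AffineSubspace ℝ (Pt d), IsFlat 0 L → numMet G L ≤ T := by
  classical
  by_contra hno
  have hno' : ∀ G : GeomHyp d (d + 1), G.V.card = n → G.E.card = F.card →
      ∃ L : AffineSubspace ℝ (Pt d), IsFlat 0 L ∧ T < numMet G L := by
    intro G h1 h2
    by_contra h3
    refine hno ⟨G, h1, h2, fun L hL => ?_⟩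
    by_contra h4
    exact h3 ⟨L, hL, not_le.1 h4⟩
  choose w x hwv H hHF hHc hHm using Semi_seq hd v F hF hno'
  let U : Ultrafilter ℕ := Filter.hyperfilter ℕ
  have hU : (U : Filter ℕ) ≤ Filter.atTop := Nat.hyperfilter_le_atTop
  -- the limit family
  let K : Finset (Finset (Fin n)) :=
    F.filter (fun e => ∀ᶠ k in (U : Filter ℕ), x k ∈ convexHull ℝ (w k '' (e : Set (Fin n))))
  have hev : ∀ᶠ k in (U : Filter ℕ), ∀ e ∈ F,
      (e ∈ K ↔ x k ∈ convexHull ℝ (w k '' (e : Set (Fin n)))) := by
    rw [Filter.eventually_all_finset]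
    intro e he
    by_cases h : ∀ᶠ k in (U : Filter ℕ), x k ∈ convexHull ℝ (w k '' (e : Set (Fin n)))
    · filter_upwards [h] with k hk
      exact ⟨fun _ => hk, fun _ => Finset.mem_filter.2 ⟨he, h⟩⟩
    · have h' := Ultrafilter.eventually_not.2 h
      filter_upwards [h'] with k hk
      exact ⟨fun h2 => absurd (Finset.mem_filter.1 h2).2 h, fun h2 => absurd h2 hk⟩
  obtain ⟨k0, hk0⟩ := hev.exists
  have hKH : K = H k0 := by
    ext e
    constructor
    · intro he
      have heF : e ∈ F := (Finset.mem_filter.1 he).1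
      exact (hHm k0 e heF).2 ((hk0 e heF).1 he)
    · intro he
      have heF := hHF k0 he
      exact (hk0 e heF).2 ((hHm k0 e heF).1 he)
  have hKc : T < K.card := by
    rw [hKH]
    exact hHc k0
  obtain ⟨e0, he0⟩ : K.Nonempty := Finset.card_pos.1 (by omega)
  -- close points
  have hclose : ∀ e ∈ K, ∀ᶠ k in (U : Filter ℕ),
      ∃ y ∈ convexHull ℝ (v '' (e : Set (Fin n))), dist (x k) y ≤ 1 / ((k : ℝ) + 1) := by
    intro e he
    filter_upwards [(Finset.mem_filter.1 he).2] with k hk
    exact exists_close (w k) v _ (hwv k) e (x k) hk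
  have hcomp : ∀ e : Finset (Fin n), IsCompact (convexHull ℝ (v '' (e : Set (Fin n)))) := fun e =>
    Set.Finite.isCompact_convexHull (𝕜 := ℝ) (e.finite_toSet.image v)
  have htend : Filter.Tendsto (fun k : ℕ => 1 / ((k : ℝ) + 1)) (U : Filter ℕ) (nhds 0) :=
    tendsto_one_div_add_atTop_nhds_zero_nat.mono_left hU
  -- the limit point
  obtain ⟨z, hz⟩ : ∃ z : Pt d, Filter.Tendsto x (U : Filter ℕ) (nhds z) := by
    have hb : ∀ᶠ k in (U : Filter ℕ),
        x k ∈ Metric.cthickening 1 (convexHull ℝ (v '' (e0 : Set (Fin n)))) := by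
      filter_upwards [hclose e0 he0] with k hk
      obtain ⟨y, hy, hxy⟩ := hk
      have h1 : (1 : ℝ) / ((k : ℝ) + 1) ≤ 1 := by
        rw [div_le_one (by positivity)]
        have : (0 : ℝ) ≤ k := Nat.cast_nonneg k
        linarith
      exact Metric.mem_cthickening_of_dist_le (x k) y 1 _ hy (hxy.trans h1)
    have hcc : IsCompact (Metric.cthickening 1 (convexHull ℝ (v '' (e0 : Set (Fin n))))) :=
      (hcomp e0).cthickening
    obtain ⟨z, _, hz⟩ := hcc.ultrafilter_le_nhds (U.map x) (Filter.le_principal_iff.2 hb)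
    exact ⟨z, hz⟩
  have hzK : ∀ e ∈ K, z ∈ convexHull ℝ (v '' (e : Set (Fin n))) := by
    intro e he
    rw [← (hcomp e).isClosed.closure_eq, Metric.mem_closure_iff_infDist_zero ?_]
    · have hc : Filter.Tendsto (fun k => Metric.infDist (x k) (convexHull ℝ (v '' (e : Set (Fin n)))))
          (U : Filter ℕ) (nhds (Metric.infDist z (convexHull ℝ (v '' (e : Set (Fin n)))))) :=
        ((Metric.continuous_infDist_pt _).tendsto z).comp hz
      have h0 : Filter.Tendsto (fun k => Metric.infDist (x k) (convexHull ℝ (v '' (e : Set (Fin n)))))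
          (U : Filter ℕ) (nhds 0) := by
        refine squeeze_zero' (Filter.Eventually.of_forall fun k => Metric.infDist_nonneg) ?_ htend
        filter_upwards [hclose e he] with k hk
        obtain ⟨y, hy, hxy⟩ := hk
        exact (Metric.infDist_le_dist_of_mem hy).trans hxy
      exact tendsto_nhds_unique hc h0
    · obtain ⟨k, hk⟩ := (hclose e he).exists
      obtain ⟨y, hy, _⟩ := hk
      exact ⟨y, hy⟩
  have hsub : (K : Set (Finset (Fin n))) ⊆
      {e : Finset (Fin n) | e ∈ F ∧ z ∈ convexHull ℝ (v '' (e : Set (Fin n)))} := by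
    intro e he
    exact ⟨(Finset.mem_filter.1 he).1, hzK e he⟩
  have hfin : {e : Finset (Fin n) | e ∈ F ∧ z ∈ convexHull ℝ (v '' (e : Set (Fin n)))}.Finite :=
    F.finite_toSet.subset fun e he => he.1
  have h1 := Set.ncard_le_ncard hsub hfin
  rw [Set.ncard_coe_finset] at h1
  exact absurd (h1.trans (hT z)) (not_le.2 hKc)

end Pool.Agent.H74.GB
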