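import Mathlib
import Pool.Agent.H74.GB.Semi
import Pool.Agent.H74.GB.Clu
import Pool.Agent.H74.GB.GeoB

/-!
Module Cfg (the hypergraphs in `ℝ³`; uses the statements of Semi, Clu, GeoA, GeoB).

Paper proof (complete). Let `K = 4 κ`, `ι = Fin 4 × Fin K`. Apply `exists_cluster` with `d = 3`,
`p = cp K`, `𝒬 = fq K`, `N = 12 K`, `D = K^2` (`card_of_fq`, `card_hit`, `not_mem_hull`, `card_star`):
`v : ι × Fin s → Pt 3` such that every `x` is in at most
`12 K s^4 + K^2 s^3 = 48 κ s^4 + 16 κ^2 s^3` of the edges `e` (`e.card = 4`, `e.image Prod.fst ∈ fq K`).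
There are at least `κ^3 s^4` edges: for `Q ∈ fq K` and `f : Q → Fin s` (or `f : Fin 4 → Fin s` and
`Q = qs a`) the set `{((i, a i), f i)}` is an edge, and `(a, f)` is determined by it. `ι × Fin s` has
`16 κ s ≤ n` elements; fix an embedding `j : ι × Fin s ↪ Fin n`, let `v' : Fin n → Pt 3` be `v` on the
range of `j` and `0` elsewhere (`Function.extend`), let `F0` be the set of the `e.map j`, `e` an edge, and
`F ⊆ F0` with `F.card = m` (`Finset.exists_subset_card_eq`). For `e` an edge, `v' '' (e.map j) = v '' e`.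
Apply `exists_generic`.
-/

namespace Pool.Agent.H74.GB

open Pool.Agent.H68

private def cfgEdge {K s : ℕ} (a : Fin 4 → Fin K) (f : Fin 4 → Fin s) :
    Finset ((Fin 4 × Fin K) × Fin s) :=
  Finset.univ.image (fun i : Fin 4 => ((i, a i), f i))

private theorem cfgEdge_card {K s : ℕ} (a : Fin 4 → Fin K) (f : Fin 4 → Fin s) :
    (cfgEdge a f).card = 4 := by
  unfold cfgEdge
  rw [Finset.card_image_of_injective]
  · simp
  · intro i j h
    simp only [Prod.mk.injEq] at h
    exact h.1.1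

private theorem cfgEdge_image {K s : ℕ} (a : Fin 4 → Fin K) (f : Fin 4 → Fin s) :
    (cfgEdge a f).image Prod.fst = qs a := by
  unfold cfgEdge qs
  rw [Finset.image_image]
  rfl

private theorem cfgEdge_inj {K s : ℕ} (a a' : Fin 4 → Fin K) (f f' : Fin 4 → Fin s)
    (h : cfgEdge a f = cfgEdge a' f') : a = a' ∧ f = f' := by
  have key : ∀ i : Fin 4, a i = a' i ∧ f i = f' i := by
    intro i
    have h1 : ((i, a i), f i) ∈ cfgEdge a' f' := by
      rw [← h]
      unfold cfgEdge
      exact Finset.mem_image_of_mem _ (Finset.mem_univ i)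
    unfold cfgEdge at h1
    rw [Finset.mem_image] at h1
    obtain ⟨j, -, hj⟩ := h1
    simp only [Prod.mk.injEq] at hj
    obtain ⟨⟨hji, hja⟩, hjf⟩ := hj
    subst hji
    exact ⟨hja.symm, hjf.symm⟩
  exact ⟨funext fun i => (key i).1, funext fun i => (key i).2⟩

private def cfgEdges (K s : ℕ) : Finset (Finset ((Fin 4 × Fin K) × Fin s)) :=
  Finset.univ.filter (fun e => e.card = 4 ∧ e.image Prod.fst ∈ fq K)

private theorem cfgEdges_card (κ s : ℕ) : κ ^ 3 * s ^ 4 ≤ (cfgEdges (4 * κ) s).card := by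
  have h1 : κ ^ 3 ≤ (tq (4 * κ)).card := by
    refine le_trans (card_fq_ge κ) ?_
    unfold fq
    exact Finset.card_image_le
  have h2 : ((tq (4 * κ)) ×ˢ (Finset.univ : Finset (Fin 4 → Fin s))).card ≤
      (cfgEdges (4 * κ) s).card := by
    refine Finset.card_le_card_of_injOn (fun x => cfgEdge x.1 x.2) ?_ ?_
    · intro x hx
      have hx' := Finset.mem_product.1 (Finset.mem_coe.1 hx)
      unfold cfgEdges
      simp only [Finset.coe_filter, Finset.mem_univ, true_and, Set.mem_ofPred_eq]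
      refine ⟨cfgEdge_card _ _, ?_⟩
      rw [cfgEdge_image]
      unfold fq
      exact Finset.mem_image_of_mem _ hx'.1
    · intro x _ y _ hxy
      obtain ⟨h, h'⟩ := cfgEdge_inj _ _ _ _ hxy
      exact Prod.ext h h'
  rw [Finset.card_product, Finset.card_univ, Fintype.card_fun, Fintype.card_fin,
    Fintype.card_fin] at h2
  exact le_trans (Nat.mul_le_mul_right _ h1) h2

theorem exists_config (n m κ s : ℕ) (h : 16 * κ * s ≤ n) (hm : m ≤ κ ^ 3 * s ^ 4) :
    ∃ G : GeomHyp 3 4, G.V.card = n ∧ G.E.card = m ∧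
      ∀ L : AffineSubspace ℝ (Pt 3), IsFlat 0 L →
        numMet G L ≤ 48 * κ * s ^ 4 + 16 * κ ^ 2 * s ^ 3 := by
  classical
  obtain ⟨v, hv⟩ := exists_cluster (d := 3) (s := s) (N := 12 * (4 * κ)) (D := (4 * κ) ^ 2)
    (by norm_num) (cp (4 * κ)) (fq (4 * κ)) (fun Q hQ => card_of_fq Q hQ)
    (fun x hx => card_hit x hx)
    (fun i Q hQ => by
      unfold fq at hQ
      rw [Finset.mem_image] at hQ
      obtain ⟨a, -, rfl⟩ := hQ
      exact not_mem_hull i a)
    (fun i => card_star i)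
  have hcard : Fintype.card ((Fin 4 × Fin (4 * κ)) × Fin s) ≤ Fintype.card (Fin n) := by
    simp only [Fintype.card_prod, Fintype.card_fin]
    calc 4 * (4 * κ) * s = 16 * κ * s := by ring
      _ ≤ n := h
  obtain ⟨j⟩ := Function.Embedding.nonempty_of_card_le hcard
  let v' : Fin n → Pt 3 := Function.extend j v (fun _ => 0)
  have hv' : ∀ y, v' (j y) = v y := fun y => j.injective.extend_apply v _ y
  have himg : ∀ e : Finset ((Fin 4 × Fin (4 * κ)) × Fin s),
      v' '' ((e.map j : Finset (Fin n)) : Set (Fin n)) =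
        v '' (e : Set ((Fin 4 × Fin (4 * κ)) × Fin s)) := by
    intro e
    rw [Finset.coe_map, Set.image_image]
    exact Set.image_congr fun y _ => hv' y
  let F0 : Finset (Finset (Fin n)) := (cfgEdges (4 * κ) s).image (fun e => e.map j)
  have hF0 : m ≤ F0.card := by
    have : F0.card = (cfgEdges (4 * κ) s).card :=
      Finset.card_image_of_injective _ (Finset.map_injective j)
    rw [this]
    exact le_trans hm (cfgEdges_card κ s)
  obtain ⟨F, hFF, hFm⟩ := Finset.exists_subset_card_eq hF0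
  have hmem : ∀ e ∈ F, ∃ e' : Finset ((Fin 4 × Fin (4 * κ)) × Fin s),
      (e'.card = 4 ∧ e'.image Prod.fst ∈ fq (4 * κ)) ∧ e'.map j = e := by
    intro e he
    obtain ⟨e', he', hee⟩ := Finset.mem_image.1 (hFF he)
    unfold cfgEdges at he'
    exact ⟨e', (Finset.mem_filter.1 he').2, hee⟩
  have hF : ∀ e ∈ F, e.card = 3 + 1 := by
    intro e he
    obtain ⟨e', ⟨h4, -⟩, rfl⟩ := hmem e he
    rw [Finset.card_map]
    exact h4
  have hT : ∀ x : Pt 3,
      {e : Finset (Fin n) | e ∈ F ∧ x ∈ convexHull ℝ (v' '' (e : Set (Fin n)))}.ncard ≤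
        48 * κ * s ^ 4 + 16 * κ ^ 2 * s ^ 3 := by
    intro x
    have hsub : {e : Finset (Fin n) | e ∈ F ∧ x ∈ convexHull ℝ (v' '' (e : Set (Fin n)))} ⊆
        (fun e : Finset ((Fin 4 × Fin (4 * κ)) × Fin s) => e.map j) ''
          {e | e.card = 3 + 1 ∧ e.image Prod.fst ∈ fq (4 * κ) ∧
            x ∈ convexHull ℝ (v '' (e : Set ((Fin 4 × Fin (4 * κ)) × Fin s)))} := by
      rintro e ⟨he, hx⟩
      obtain ⟨e', ⟨h4, hq⟩, rfl⟩ := hmem e he
      rw [himg] at hx
      exact ⟨e', ⟨h4, hq, hx⟩, rfl⟩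
    refine le_trans (Set.ncard_le_ncard hsub (Set.toFinite _)) ?_
    refine le_trans (Set.ncard_image_le (Set.toFinite _)) ?_
    refine le_trans (hv x) (le_of_eq ?_)
    ring
  obtain ⟨G, h1, h2, h3⟩ := exists_generic (d := 3) (by norm_num) v' F hF hT
  exact ⟨G, h1, h2.trans hFm, h3⟩

end Pool.Agent.H74.GB
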