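import Mathlib
import Pool.Agent.H68.GeomHyp

/-!
Module Ext (from `fval` to a hypergraph).

Paper proof (complete). `exists_of_fval`: let `T = fval d r k m n`. If no `G` as wanted exists then
`T + 1` belongs to the set of `fval` (for every `G` with `n` vertices and `m` edges some `k`-flat
meets at least `T + 1` edges), which is bounded above by `m` (`exists_geomHyp`, `numMet_le`), so
`T + 1 ≤ T` (`le_fval`).
`fval_le_card`: `fval ≤ m` (`fval_le` with any hypergraph, `numMet_le`).
-/

namespace Pool.Agent.H74.GB

open Pool.Agent.H68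

theorem exists_of_fval {d r k m n : ℕ} (hd : 1 ≤ d) (hr : r ≤ d + 1) (hm : m ≤ n.choose r) :
    ∃ G : GeomHyp d r, G.V.card = n ∧ G.E.card = m ∧
      ∀ L : AffineSubspace ℝ (Pt d), IsFlat k L → numMet G L ≤ fval d r k m n := by
  by_contra hcon
  push Not at hcon
  have h := le_fval (d := d) (r := r) (k := k) (m := m) (n := n) (t := fval d r k m n + 1)
    (exists_geomHyp hd hr hm) (fun G hV hE => hcon G hV hE)
  omega

theorem fval_le_card {d r k m n : ℕ} (hd : 1 ≤ d) (hr : r ≤ d + 1) (hm : m ≤ n.choose r) :
    fval d r k m n ≤ m := by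
  obtain ⟨G, hV, hE⟩ := exists_geomHyp hd hr hm
  apply fval_le G hV hE
  intro L _
  exact (numMet_le G L).trans hE.le

end Pool.Agent.H74.GB
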