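import Mathlib
import Pool.Agent.H9.SC.TwoS
import Pool.Agent.H74.GB.Ext
import Pool.Agent.H74.GB.Cfg

/-!
Module Bas (dimension three, numerics; uses the statements of Ext and Cfg).

Paper proof (complete). Let `C1` be the constant of `Pool.Agent.H9.SC.two_sided 3 4 0`, `A = 32^4`,
`C = C1 + A^3` (any large constant). Let `1 ≤ m ≤ n.choose 4`, so `n ≥ 4`.
(i) `m ≤ n^3`: the third clause of `two_sided` (`3 < 0 + 4`) gives
`fval ≤ C1 * max 1 (m/n) * (max 1 (m / n^3))^(1/(0+4-3)) = C1 * max 1 (m/n)`.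
(ii) `n^3 < m` and `A * m ≤ n^4`: let `κ = n^4 / (A m)` (natural division), `κ ≥ 1`, and
`κ A m ≤ n^4 < 2 κ A m`. As `m > n^3`, `κ A ≤ n`, in particular `16 κ ≤ n`. Let `s = n / (16 κ)`, `s ≥ 1`,
`16 κ s ≤ n < 32 κ s`. Then `κ^3 s^4 ≥ κ^3 (n / (32 κ))^4 = n^4 / (32^4 κ) ≥ m`. By `exists_config`
(`fval_le`) `fval ≤ 48 κ s^4 + 16 κ^2 s^3 ≤ 48 κ (n/(16κ))^4 + 16 κ^2 (n/(16κ))^3
= (48/16^4) n^4/κ^3 + (1/256) n^3/κ`, and `1/κ < 2 A m / n^4` gives
`≤ (48/16^4) * 8 A^3 * m^3/n^8 + (1/256) * 2 A * m/n`.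
(iii) `n^4 < A m`: `fval ≤ m ≤ m (A m / n^4)^2 = A^2 m^3 / n^8` (`fval_le_card`).
-/

namespace Pool.Agent.H74.GB

open Pool.Agent.H68

private lemma bas_real {N M K S : ℝ} (hN : 0 < N) (hM : 0 < M) (hK : 1 ≤ K) (hS : 0 ≤ S)
    (h1 : 16 * K * S ≤ N) (h2 : N ^ 4 ≤ 2 * (K * (1048576 * M))) :
    48 * K * S ^ 4 + 16 * K ^ 2 * S ^ 3 ≤
      1048576 ^ 3 * (M / N) + 1048576 ^ 3 * (M ^ 3 / N ^ 8) := by
  have hK0 : 0 < K := by linarith
  have hN4 : 0 < N ^ 4 := by positivity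
  have hw : K⁻¹ ≤ 2 * 1048576 * M / N ^ 4 := by
    rw [inv_eq_one_div, div_le_div_iff₀ hK0 hN4]
    linarith
  have ht0 : 0 ≤ K * S := by positivity
  have ht : K * S ≤ N / 16 := by linarith
  have hi0 : 0 ≤ K⁻¹ := by positivity
  have e1 : 48 * K * S ^ 4 = 48 * ((K * S) ^ 4 * (K⁻¹) ^ 3) := by
    field_simp
  have e2 : 16 * K ^ 2 * S ^ 3 = 16 * ((K * S) ^ 3 * K⁻¹) := by
    field_simp
  have b1 : (K * S) ^ 4 * (K⁻¹) ^ 3 ≤ (N / 16) ^ 4 * (2 * 1048576 * M / N ^ 4) ^ 3 := by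
    apply mul_le_mul (pow_le_pow_left₀ ht0 ht 4) (pow_le_pow_left₀ hi0 hw 3) (by positivity)
      (by positivity)
  have b2 : (K * S) ^ 3 * K⁻¹ ≤ (N / 16) ^ 3 * (2 * 1048576 * M / N ^ 4) := by
    apply mul_le_mul (pow_le_pow_left₀ ht0 ht 3) hw hi0 (by positivity)
  have c1 : 48 * ((N / 16) ^ 4 * (2 * 1048576 * M / N ^ 4) ^ 3) =
      (48 * 8 / 65536) * 1048576 ^ 3 * (M ^ 3 / N ^ 8) := by
    field_simp
    ring
  have c2 : 16 * ((N / 16) ^ 3 * (2 * 1048576 * M / N ^ 4)) =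
      (2 * 1048576 / 256) * (M / N) := by
    field_simp
    ring
  have d1 : 0 ≤ M ^ 3 / N ^ 8 := by positivity
  have d2 : 0 ≤ M / N := by positivity
  rw [e1, e2]
  calc 48 * ((K * S) ^ 4 * (K⁻¹) ^ 3) + 16 * ((K * S) ^ 3 * K⁻¹)
      ≤ 48 * ((N / 16) ^ 4 * (2 * 1048576 * M / N ^ 4) ^ 3) +
        16 * ((N / 16) ^ 3 * (2 * 1048576 * M / N ^ 4)) := by linarith
    _ = (48 * 8 / 65536) * 1048576 ^ 3 * (M ^ 3 / N ^ 8) +
        (2 * 1048576 / 256) * (M / N) := by rw [c1, c2]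
    _ ≤ 1048576 ^ 3 * (M / N) + 1048576 ^ 3 * (M ^ 3 / N ^ 8) := by
      have e1 : (2 * 1048576 / 256 : ℝ) * (M / N) ≤ 1048576 ^ 3 * (M / N) :=
        mul_le_mul_of_nonneg_right (by norm_num) d2
      have e2 : (48 * 8 / 65536 : ℝ) * 1048576 ^ 3 * (M ^ 3 / N ^ 8) ≤
          1048576 ^ 3 * (M ^ 3 / N ^ 8) :=
        mul_le_mul_of_nonneg_right (by norm_num) d1
      linarith

theorem base_three : ∃ C : ℝ, 0 < C ∧ ∀ n m : ℕ, 1 ≤ m → m ≤ n.choose 4 →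
    (fval 3 4 0 m n : ℝ) ≤ C * (max 1 ((m : ℝ) / n) + (m : ℝ) ^ 3 / (n : ℝ) ^ 8) := by
  obtain ⟨C1, hC1, h1⟩ := Pool.Agent.H9.SC.two_sided 3 4 0 (by norm_num) (by norm_num) (by norm_num)
  refine ⟨C1 + 1048576 ^ 3, by positivity, ?_⟩
  intro n m hm1 hm
  have hn : 4 ≤ n := by
    by_contra h0
    rw [Nat.choose_eq_zero_of_lt (by omega)] at hm
    omega
  have hN : (0 : ℝ) < n := by
    have : 0 < n := by omega
    exact_mod_cast this
  have hM : (0 : ℝ) < m := by exact_mod_cast hm1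
  have a1 := le_max_left (1 : ℝ) ((m : ℝ) / n)
  have a2 := le_max_right (1 : ℝ) ((m : ℝ) / n)
  have a3 : 0 ≤ (m : ℝ) ^ 3 / (n : ℝ) ^ 8 := by positivity
  by_cases hc1 : m ≤ n ^ 3
  · obtain ⟨-, -, h3⟩ := h1 n m hm1 hm
    have h4 := h3 (by norm_num)
    have h5 : max 1 ((m : ℝ) / (n : ℝ) ^ (3 - 0)) = 1 := by
      apply max_eq_left
      rw [div_le_one (by positivity)]
      have : ((m : ℕ) : ℝ) ≤ ((n ^ 3 : ℕ) : ℝ) := by exact_mod_cast hc1
      simpa using this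
    rw [h5, Real.one_rpow, mul_one] at h4
    have e1 : C1 * max 1 ((m : ℝ) / n) ≤
        (C1 + 1048576 ^ 3) * (max 1 ((m : ℝ) / n) + (m : ℝ) ^ 3 / (n : ℝ) ^ 8) := by
      apply mul_le_mul <;> first | positivity | linarith
    linarith
  · by_cases hc2 : 1048576 * m ≤ n ^ 4
    · have hc1' : n ^ 3 < m := by omega
      obtain ⟨κ, hκ⟩ : ∃ κ, κ = n ^ 4 / (1048576 * m) := ⟨_, rfl⟩
      have hAm : 0 < 1048576 * m := by omega
      have hκ1 : 1 ≤ κ := by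
        rw [hκ]
        exact Nat.div_pos hc2 hAm
      have hκ2 : κ * (1048576 * m) ≤ n ^ 4 := by
        rw [hκ]
        exact Nat.div_mul_le_self _ _
      have hκ3 : n ^ 4 < (κ + 1) * (1048576 * m) := by
        rw [hκ, mul_comm]
        exact Nat.lt_mul_div_succ (n ^ 4) hAm
      have hκ4 : n ^ 4 ≤ 2 * (κ * (1048576 * m)) := by
        have : (κ + 1) * (1048576 * m) ≤ (2 * κ) * (1048576 * m) :=
          Nat.mul_le_mul_right _ (by omega)
        have h' : (2 * κ) * (1048576 * m) = 2 * (κ * (1048576 * m)) := by ring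
        omega
      have hκ5 : κ * 1048576 ≤ n := by
        by_contra h
        have h' : n < κ * 1048576 := by omega
        have h2 : n * n ^ 3 ≤ κ * 1048576 * n ^ 3 := Nat.mul_le_mul_right _ h'.le
        have h3 : κ * 1048576 * n ^ 3 < κ * 1048576 * m :=
          Nat.mul_lt_mul_of_pos_left hc1' (by omega)
        have h4 : n * n ^ 3 = n ^ 4 := by ring
        have h5 : κ * 1048576 * m = κ * (1048576 * m) := by ring
        omega
      have hκ6 : 16 * κ ≤ n := by omega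
      obtain ⟨s, hs⟩ : ∃ s, s = n / (16 * κ) := ⟨_, rfl⟩
      have hs1 : 1 ≤ s := by
        rw [hs]
        exact Nat.div_pos hκ6 (by omega)
      have hs2 : 16 * κ * s ≤ n := by
        rw [hs]
        exact Nat.mul_div_le _ _
      have hs3 : n < 16 * κ * (s + 1) := by
        rw [hs]
        exact Nat.lt_mul_div_succ n (by omega)
      have hs4 : n ≤ 32 * κ * s := by
        have : 16 * κ * (s + 1) ≤ 16 * κ * (2 * s) := Nat.mul_le_mul_left _ (by omega)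
        have h' : 16 * κ * (2 * s) = 32 * κ * s := by ring
        omega
      have hms : m ≤ κ ^ 3 * s ^ 4 := by
        have h2 : n ^ 4 ≤ (32 * κ * s) ^ 4 := Nat.pow_le_pow_left hs4 4
        have h3 : κ * (1048576 * m) ≤ (32 * κ * s) ^ 4 := hκ2.trans h2
        have h4 : (32 * κ * s) ^ 4 = (κ * 1048576) * (κ ^ 3 * s ^ 4) := by ring
        have h5 : κ * (1048576 * m) = (κ * 1048576) * m := by ring
        rw [h4, h5] at h3
        exact Nat.le_of_mul_le_mul_left h3 (by omega)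
      obtain ⟨G, hG1, hG2, hG3⟩ := exists_config n m κ s hs2 hms
      have hf : fval 3 4 0 m n ≤ 48 * κ * s ^ 4 + 16 * κ ^ 2 * s ^ 3 := fval_le G hG1 hG2 hG3
      have hf' : (fval 3 4 0 m n : ℝ) ≤ 48 * κ * (s : ℝ) ^ 4 + 16 * (κ : ℝ) ^ 2 * (s : ℝ) ^ 3 := by
        exact_mod_cast hf
      have hr := bas_real (N := n) (M := m) (K := κ) (S := s) hN hM (by exact_mod_cast hκ1)
        (by positivity) (by exact_mod_cast hs2) (by exact_mod_cast hκ4)
      have hfin : 1048576 ^ 3 * ((m : ℝ) / n) + 1048576 ^ 3 * ((m : ℝ) ^ 3 / (n : ℝ) ^ 8) ≤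
          (C1 + 1048576 ^ 3) * (max 1 ((m : ℝ) / n) + (m : ℝ) ^ 3 / (n : ℝ) ^ 8) := by
        have e0 : 1048576 ^ 3 * ((m : ℝ) / n) + 1048576 ^ 3 * ((m : ℝ) ^ 3 / (n : ℝ) ^ 8) =
          1048576 ^ 3 * ((m : ℝ) / n + (m : ℝ) ^ 3 / (n : ℝ) ^ 8) := by ring
        rw [e0]
        apply mul_le_mul
        · linarith
        · linarith
        · positivity
        · positivity
      linarith
    · have hc2' : n ^ 4 < 1048576 * m := by omega
      have hf : fval 3 4 0 m n ≤ m := fval_le_card (by norm_num) (by norm_num) hm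
      have hf' : (fval 3 4 0 m n : ℝ) ≤ m := by exact_mod_cast hf
      have hx : (1 : ℝ) ≤ 1048576 * m / (n : ℝ) ^ 4 := by
        rw [one_le_div (by positivity)]
        have : ((n ^ 4 : ℕ) : ℝ) ≤ ((1048576 * m : ℕ) : ℝ) := by exact_mod_cast hc2'.le
        push_cast at this
        exact this
      have hx2 : (1 : ℝ) ≤ (1048576 * m / (n : ℝ) ^ 4) ^ 2 := one_le_pow₀ hx
      have hx3 : (m : ℝ) ≤ m * (1048576 * m / (n : ℝ) ^ 4) ^ 2 := by
        nlinarith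
      have hx4 : m * (1048576 * m / (n : ℝ) ^ 4) ^ 2 = 1048576 ^ 2 * ((m : ℝ) ^ 3 / (n : ℝ) ^ 8) := by
        field_simp
      have hfin : 1048576 ^ 2 * ((m : ℝ) ^ 3 / (n : ℝ) ^ 8) ≤
          (C1 + 1048576 ^ 3) * (max 1 ((m : ℝ) / n) + (m : ℝ) ^ 3 / (n : ℝ) ^ 8) := by
        apply mul_le_mul
        · have : (1048576 : ℝ) ^ 2 ≤ 1048576 ^ 3 := by norm_num
          linarith
        · linarith
        · positivity
        · positivity
      linarith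

end Pool.Agent.H74.GB
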