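import Mathlib
import Pool.Agent.H74.GB.Semi

/-!
Module Cne (cones over a configuration, uses the statement of Semi).

Paper proof (complete). Enumerate the vertices of `G`: an injective `p : Fin n1 → Pt d` with range
`G.V`, and let `F` be the set of index sets of the edges, `F.card = m1`; for every point `y` of `ℝ^d` at
most `T` members `f` of `F` have `y ∈ convexHull (p '' f)` (the flat `{y}`: `AffineSubspace.mk' y ⊥`).
In `ℝ^(d+1)` take the points `v (Fin.castAdd n2 i) = (p i, 0)` and `v (Fin.natAdd n1 l) = (l e_0, 1)`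
(`l = 0, .., n2 - 1`; first coordinate `l`, last coordinate `1`, the others `0`; note `d ≥ 1`). Let `F0` be the
set of all `f ∪ {l}` (index sets in `Fin (n1 + n2)`), `f ∈ F`, `l : Fin n2`: it has `m1 * n2`
elements of cardinality `d + 2`; choose a subset `F' ⊆ F0` with `m` elements. Let `x = (x', h)` be a point
of `ℝ^(d+1)`. If `x ∈ convexHull (v '' (f ∪ {l}))` then `x = ∑_{i ∈ f} y_i (p i, 0) + c (l e_0, 1)`, so
`c = h`, `0 ≤ h ≤ 1`, `∑ y_i = 1 - h`. If `h = 1` all `y_i = 0` and `x = (l e_0, 1)`, so `l` is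
determined by `x` and the number of such sets is at most `m1`. If `h < 1` then the point
`(x' - h l e_0) / (1 - h)` is in `convexHull (p '' f)`, so for each `l` at most `T` sets `f`, together at
most `n2 * T`. Apply `exists_generic` (dimension `d + 1`).
-/

namespace Pool.Agent.H74.GB

open Pool.Agent.H68

/-- the point `(y, t)` -/
private noncomputable def Cne_mk {d : ℕ} (y : Pt d) (t : ℝ) : Pt (d + 1) :=
  WithLp.toLp 2 (Fin.snoc (α := fun _ => ℝ) (fun j => y j) t)

/-- the projection to the first `d` coordinates -/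
private noncomputable def Cne_pi {d : ℕ} : Pt (d + 1) →ₗ[ℝ] Pt d where
  toFun x := WithLp.toLp 2 (fun j => x (Fin.castSucc j))
  map_add' x y := by ext; simp
  map_smul' c x := by ext; simp

/-- the last coordinate -/
private noncomputable def Cne_h {d : ℕ} : Pt (d + 1) →ₗ[ℝ] ℝ where
  toFun x := x (Fin.last d)
  map_add' x y := by simp
  map_smul' c x := by simp

private theorem Cne_pi_mk {d : ℕ} (y : Pt d) (t : ℝ) : Cne_pi (Cne_mk y t) = y := by
  ext j
  simp [Cne_pi, Cne_mk]

private theorem Cne_h_mk {d : ℕ} (y : Pt d) (t : ℝ) : Cne_h (Cne_mk y t) = t := by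
  show (Fin.snoc (α := fun _ => ℝ) (fun j => y j) t : Fin (d + 1) → ℝ) (Fin.last d) = t
  rw [Fin.snoc_last]

private theorem Cne_hull {d : ℕ} (P : Set (Pt d)) (hP : P.Nonempty) (q : Pt d) (x : Pt (d + 1))
    (hx : x ∈ convexHull ℝ (insert (Cne_mk q 1) ((fun y => Cne_mk y 0) '' P))) :
    ∃ y ∈ convexHull ℝ P, Cne_pi x = Cne_h x • q + (1 - Cne_h x) • y := by
  rw [convexHull_insert (hP.image _), mem_convexJoin] at hx
  obtain ⟨a, ha, z, hz, hx⟩ := hx
  rw [Set.mem_singleton_iff] at ha
  subst ha
  obtain ⟨s, t, hs, ht, hst, rfl⟩ := hx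
  have h1 : Cne_pi z ∈ convexHull ℝ P := by
    have h2 : Cne_pi z ∈ Cne_pi '' convexHull ℝ ((fun y : Pt d => Cne_mk y 0) '' P) := ⟨z, hz, rfl⟩
    rw [LinearMap.image_convexHull, Set.image_image] at h2
    simpa only [Cne_pi_mk, Set.image_id'] using h2
  have h3 : Cne_h z = 0 := by
    have h2 : Cne_h z ∈ Cne_h '' convexHull ℝ ((fun y : Pt d => Cne_mk y 0) '' P) := ⟨z, hz, rfl⟩
    rw [LinearMap.image_convexHull, Set.image_image] at h2
    simp only [Cne_h_mk] at h2
    have h4 : convexHull ℝ ((fun _ : Pt d => (0 : ℝ)) '' P) ⊆ {0} := by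
      apply convexHull_min _ (convex_singleton 0)
      rintro _ ⟨_, _, rfl⟩
      rfl
    exact h4 h2
  refine ⟨Cne_pi z, h1, ?_⟩
  have h5 : Cne_h (s • Cne_mk q 1 + t • z) = s := by
    rw [map_add, map_smul, map_smul, Cne_h_mk, h3]
    simp
  rw [h5, map_add, map_smul, map_smul, Cne_pi_mk, show 1 - s = t by linarith]

theorem exists_cone (d n1 n2 m1 T m : ℕ) (hd : 1 ≤ d) (G : GeomHyp d (d + 1))
    (hV : G.V.card = n1) (hE : G.E.card = m1)
    (hT : ∀ L : AffineSubspace ℝ (Pt d), IsFlat 0 L → numMet G L ≤ T) (hm : m ≤ m1 * n2) :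
    ∃ G' : GeomHyp (d + 1) (d + 2), G'.V.card = n1 + n2 ∧ G'.E.card = m ∧
      ∀ L : AffineSubspace ℝ (Pt (d + 1)), IsFlat 0 L → numMet G' L ≤ n2 * T + m1 := by
  classical
  -- the enumeration of the vertices
  let en : G.V ≃ Fin n1 := G.V.equivFinOfCardEq hV
  let p : Fin n1 → Pt d := fun i => (en.symm i : Pt d)
  have hp : Function.Injective p := fun i j h => en.symm.injective (Subtype.ext h)
  have hpV : ∀ x ∈ G.V, ∃ i, p i = x := fun x hx => ⟨en ⟨x, hx⟩, by simp [p]⟩
  -- index sets of edges
  let J : Finset (Pt d) → Finset (Fin n1) := fun e => Finset.univ.filter fun i => p i ∈ e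
  have hJ : ∀ e ∈ G.E, p '' (J e : Set (Fin n1)) = (e : Set (Pt d)) := by
    intro e he
    ext x
    constructor
    · rintro ⟨i, hi, rfl⟩
      simp only [J, Finset.coe_filter, Finset.mem_univ, true_and, Set.mem_ofPred_eq] at hi
      exact hi
    · intro hx
      obtain ⟨i, rfl⟩ := hpV x (G.subV e he hx)
      refine ⟨i, ?_, rfl⟩
      simp only [J, Finset.coe_filter, Finset.mem_univ, true_and, Set.mem_ofPred_eq]
      exact hx
  have hJinj : Set.InjOn J (G.E : Set (Finset (Pt d))) := by
    intro e he e' he' h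
    apply Finset.coe_injective
    rw [← hJ e he, ← hJ e' he', h]
  let F : Finset (Finset (Fin n1)) := G.E.image J
  have hFc : F.card = m1 := by
    rw [Finset.card_image_of_injOn hJinj, hE]
  have hF : ∀ f ∈ F, f.card = d + 1 := by
    intro f hf
    obtain ⟨e, he, rfl⟩ := Finset.mem_image.1 hf
    rw [← G.card_eq e he]
    have h1 : ((J e).image p : Finset (Pt d)) = e := by
      apply Finset.coe_injective
      rw [Finset.coe_image]
      exact hJ e he
    rw [← Finset.card_image_of_injective _ hp, h1]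
  have hFT : ∀ y : Pt d, (F.filter fun f : Finset (Fin n1) => y ∈ convexHull ℝ (p '' (f : Set (Fin n1)))).card ≤ T := by
    intro y
    let L : AffineSubspace ℝ (Pt d) := AffineSubspace.mk' y ⊥
    have hL : IsFlat 0 L := by
      refine ⟨⟨y, AffineSubspace.self_mem_mk' y ⊥⟩, ?_⟩
      rw [AffineSubspace.direction_mk', finrank_bot]
    refine le_trans ?_ (hT L hL)
    unfold numMet
    have hsub : F.filter (fun f : Finset (Fin n1) => y ∈ convexHull ℝ (p '' (f : Set (Fin n1)))) ⊆
        (G.E.filter fun e => Meets L e).image J := by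
      intro f hf
      rw [Finset.mem_filter] at hf
      obtain ⟨hf, hy⟩ := hf
      obtain ⟨e, he, rfl⟩ := Finset.mem_image.1 hf
      rw [hJ e he] at hy
      refine Finset.mem_image.2 ⟨e, Finset.mem_filter.2 ⟨he, ?_⟩, rfl⟩
      exact ⟨y, AffineSubspace.self_mem_mk' y ⊥, hy⟩
    have hset : {e : Finset (Pt d) | e ∈ G.E ∧ Meets L e} =
        ((G.E.filter fun e => Meets L e : Finset (Finset (Pt d))) : Set (Finset (Pt d))) := by
      ext e
      simp
    rw [hset, Set.ncard_coe_finset]
    exact (Finset.card_le_card hsub).trans Finset.card_image_le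
  -- the points
  let q : Fin n2 → Pt d := fun l => EuclideanSpace.single (⟨0, hd⟩ : Fin d) ((l : ℕ) : ℝ)
  have hq : Function.Injective q := by
    intro l l' h
    have h1 := congrArg (fun z : Pt d => z ⟨0, hd⟩) h
    simp only [q, PiLp.single_apply, if_true] at h1
    exact Fin.ext (by exact_mod_cast h1)
  let v : Fin (n1 + n2) → Pt (d + 1) :=
    Fin.append (fun i => Cne_mk (p i) 0) (fun l => Cne_mk (q l) 1)
  let g : Finset (Fin n1) × Fin n2 → Finset (Fin (n1 + n2)) := fun a =>
    insert (Fin.natAdd n1 a.2) (a.1.map (Fin.castAddEmb n2))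
  have hnot : ∀ (f : Finset (Fin n1)) (l : Fin n2), Fin.natAdd n1 l ∉ f.map (Fin.castAddEmb n2) := by
    intro f l h
    obtain ⟨i, -, hi⟩ := Finset.mem_map.1 h
    have h1 := congrArg Fin.val hi
    simp only [Fin.castAddEmb_apply, Fin.val_castAdd, Fin.val_natAdd] at h1
    omega
  have hgi : Function.Injective g := by
    rintro ⟨f, l⟩ ⟨f', l'⟩ h
    have h1 : Fin.natAdd n1 l ∈ g (f', l') := by
      rw [← h]
      exact Finset.mem_insert_self _ _
    have h2 : l = l' := by
      rcases Finset.mem_insert.1 h1 with h3 | h3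
      · have h4 := congrArg Fin.val h3
        simp only [Fin.val_natAdd] at h4
        exact Fin.ext (by omega)
      · exact absurd h3 (hnot _ _)
    subst h2
    have h3 : f.map (Fin.castAddEmb n2) = f'.map (Fin.castAddEmb n2) := by
      have h4 := congrArg (fun s => s.erase (Fin.natAdd n1 l)) h
      simp only [g] at h4
      rwa [Finset.erase_insert (hnot _ _), Finset.erase_insert (hnot _ _)] at h4
    rw [Finset.map_inj.1 h3]
  have hgv : ∀ (f : Finset (Fin n1)) (l : Fin n2), v '' (g (f, l) : Set (Fin (n1 + n2))) =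
      insert (Cne_mk (q l) 1) ((fun y => Cne_mk y 0) '' (p '' (f : Set (Fin n1)))) := by
    intro f l
    simp only [g, v, Finset.coe_insert, Finset.coe_map, Set.image_insert_eq, Set.image_image,
      Fin.append_right, Fin.castAddEmb_apply, Fin.append_left]
  let F0 : Finset (Finset (Fin (n1 + n2))) := (F ×ˢ (Finset.univ : Finset (Fin n2))).image g
  have hF0c : F0.card = m1 * n2 := by
    rw [Finset.card_image_of_injective _ hgi, Finset.card_product, hFc, Finset.card_univ,
      Fintype.card_fin]
  obtain ⟨F', hF'sub, hF'c⟩ := Finset.exists_subset_card_eq (s := F0) (n := m) (by rw [hF0c]; exact hm)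
  have hF' : ∀ e ∈ F', e.card = d + 1 + 1 := by
    intro e he
    obtain ⟨⟨f, l⟩, hfl, rfl⟩ := Finset.mem_image.1 (hF'sub he)
    rw [Finset.mem_product] at hfl
    simp only [g]
    rw [Finset.card_insert_of_notMem (hnot _ _), Finset.card_map, hF f hfl.1]
  obtain ⟨G', hG1, hG2, hG3⟩ := exists_generic (d := d + 1) (T := n2 * T + m1) (by omega) v F' hF' (by
    intro x
    let PP : Finset (Finset (Fin n1) × Fin n2) := (F ×ˢ (Finset.univ : Finset (Fin n2))).filter
      fun a => x ∈ convexHull ℝ (v '' (g a : Set (Fin (n1 + n2))))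
    have hsub : {e : Finset (Fin (n1 + n2)) | e ∈ F' ∧
        x ∈ convexHull ℝ (v '' (e : Set (Fin (n1 + n2))))} ⊆ ((PP.image g : Finset _) : Set _) := by
      rintro e ⟨he, hx⟩
      obtain ⟨a, ha, rfl⟩ := Finset.mem_image.1 (hF'sub he)
      rw [Finset.mem_coe]
      exact Finset.mem_image.2 ⟨a, Finset.mem_filter.2 ⟨ha, hx⟩, rfl⟩
    have h1 := Set.ncard_le_ncard hsub (Finset.finite_toSet _)
    rw [Set.ncard_coe_finset] at h1
    refine (h1.trans Finset.card_image_le).trans ?_
    have hcl : ∀ a ∈ PP, ∃ y ∈ convexHull ℝ (p '' (a.1 : Set (Fin n1))),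
        Cne_pi x = Cne_h x • q a.2 + (1 - Cne_h x) • y := by
      rintro ⟨f, l⟩ ha
      obtain ⟨ha, hx⟩ := Finset.mem_filter.1 ha
      rw [Finset.mem_product] at ha
      rw [hgv] at hx
      have hne : (p '' (f : Set (Fin n1))).Nonempty := by
        have : f.Nonempty := Finset.card_pos.1 (by rw [hF f ha.1]; omega)
        exact (Finset.coe_nonempty.2 this).image _
      exact Cne_hull _ hne _ _ hx
    by_cases hh : Cne_h x = 1
    · have h2 : PP.card ≤ F.card := by
        apply Finset.card_le_card_of_injOn Prod.fst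
        · rintro a ha
          exact (Finset.mem_product.1 (Finset.mem_filter.1 ha).1).1
        · rintro ⟨f, l⟩ ha ⟨f', l'⟩ ha' h
          obtain ⟨y, -, hy⟩ := hcl _ ha
          obtain ⟨y', -, hy'⟩ := hcl _ ha'
          rw [hh, one_smul, sub_self, zero_smul, add_zero] at hy hy'
          have h3 : l = l' := hq (hy.symm.trans hy')
          simp only at h
          rw [h, h3]
      rw [hFc] at h2
      omega
    · have h2 : PP.card ≤ T * (Finset.univ : Finset (Fin n2)).card := by
        apply Finset.card_le_mul_card_image_of_maps_to (f := Prod.snd) (fun _ _ => Finset.mem_univ _)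
        intro l _
        refine le_trans ?_ (hFT ((1 - Cne_h x)⁻¹ • (Cne_pi x - Cne_h x • q l)))
        apply Finset.card_le_card_of_injOn Prod.fst
        · rintro ⟨f, l'⟩ ha
          rw [Finset.mem_coe, Finset.mem_filter] at ha
          obtain ⟨ha, hl⟩ := ha
          simp only at hl
          subst hl
          obtain ⟨y, hy, hxy⟩ := hcl _ ha
          rw [Finset.mem_coe, Finset.mem_filter]
          refine ⟨(Finset.mem_product.1 (Finset.mem_filter.1 ha).1).1, ?_⟩
          have h3 : (1 - Cne_h x)⁻¹ • (Cne_pi x - Cne_h x • q l') = y := by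
            rw [hxy, add_sub_cancel_left, smul_smul, inv_mul_cancel₀ (by
              intro h0
              exact hh (by linarith)), one_smul]
          rw [h3]
          exact hy
        · rintro ⟨f, l1⟩ ha ⟨f', l2⟩ ha' h
          rw [Finset.mem_coe, Finset.mem_filter] at ha ha'
          simp only at h
          rw [h]
          exact congrArg _ (ha.2.trans ha'.2.symm)
      rw [Finset.card_univ, Fintype.card_fin] at h2
      calc PP.card ≤ T * n2 := h2
        _ = n2 * T := Nat.mul_comm _ _
        _ ≤ n2 * T + m1 := Nat.le_add_right _ _)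
  exact ⟨G', hG1, hG2.trans hF'c, hG3⟩

end Pool.Agent.H74.GB
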