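import Mathlib
import Pool.Agent.H9.SC.TwoS
import Pool.Agent.H74.GB.Ext
import Pool.Agent.H74.GB.Cne

/-!
Module Stp (from dimension `d` to dimension `d + 1`, numerics; uses the statements of Ext and Cne).

Paper proof (complete). Let `C0` be the constant of the hypothesis, `C1` the constant of
`two_sided (d+1) (d+2) 0`, `D = d + 1`. Let `1 ≤ m ≤ n.choose (d+2)`, so `n ≥ d + 2 ≥ 3`.
(i) `m ≤ n^D`: the third clause of `two_sided` (`D < 0 + (D+1)`) gives `fval ≤ C1 * max 1 (m/n)`.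
(ii) `m > n^D`. Let `n2 = n / 2`, `n1 = n - n2`, so `n/3 ≤ n2 ≤ n/2 ≤ n1 ≤ n`, and
`m1 = m / n2 + 1` (natural division), so `m ≤ m1 * n2`, `m1 ≤ m/n2 + 1 ≤ 4 m / n` (as `m ≥ n`).
(iia) `m1 ≤ n1.choose (d+1)`: `exists_of_fval` and the hypothesis give `G` with `n1` vertices and `m1`
edges and `T = fval d (d+1) 0 m1 n1 ≤ C0 (max 1 (m1/n1) + m1^3/n1^(2d+2))`; `exists_cone` gives `G'` with
`n1 + n2 = n` vertices, `m` edges and `fval ≤ n2 T + m1` (`fval_le`). Here `n2 ≤ m/n` (because `m > n^D ≥ n^2`),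
`n2 * (m1/n1) ≤ m1 ≤ 4 m/n`, `n2 m1^3/n1^(2d+2) ≤ n * (4m/n)^3 / (n/2)^(2d+2) = 64 * 2^(2d+2) * m^3/n^(2d+4)`.
(iib) `n1.choose (d+1) < m1`. If `n1 < d + 1` then `n ≤ 2 n1 ≤ 2 d` and
`m ≤ n.choose (d+2) ≤ 2^n ≤ 4^d`, so `fval ≤ m ≤ 4^d * max 1 (m/n)`. Otherwise
`(n1/(d+1))^(d+1) ≤ n1.choose (d+1)` (`Nat.pow_le_choose`-type bound; e.g.
`n1^(d+1) ≤ (d+1)^(d+1) * n1.choose (d+1)`), so `4 m/n ≥ m1 > (n/(2(d+1)))^(d+1)`, i.e.
`n^(d+2) ≤ B m` with `B = 4 (2(d+1))^(d+1)`, and `fval ≤ m ≤ m (B m/n^(d+2))^2 = B^2 m^3/n^(2d+4)`.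
-/

namespace Pool.Agent.H74.GB

open Pool.Agent.H68

private lemma Stp_pow_le (n k : ℕ) (h : k ≤ n) : n ^ k ≤ k ^ k * n.choose k := by
  have h1 : n ^ k * k.factorial ≤ k ^ k * n.descFactorial k := by
    rw [← Nat.descFactorial_self k, Nat.descFactorial_eq_prod_range, Nat.descFactorial_eq_prod_range]
    have e1 : n ^ k = ∏ _i ∈ Finset.range k, n := by simp
    have e2 : k ^ k = ∏ _i ∈ Finset.range k, k := by simp
    rw [e1, e2, ← Finset.prod_mul_distrib, ← Finset.prod_mul_distrib]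
    apply Finset.prod_le_prod'
    intro i hi
    have hik : i < k := Finset.mem_range.mp hi
    obtain ⟨a, rfl⟩ := Nat.exists_eq_add_of_lt hik
    obtain ⟨b, rfl⟩ := Nat.exists_eq_add_of_le h
    have e3 : i + a + 1 - i = a + 1 := by omega
    have e4 : i + a + 1 + b - i = a + 1 + b := by omega
    rw [e3, e4]
    nlinarith [Nat.zero_le (i * b), Nat.zero_le (a * b)]
  rw [Nat.descFactorial_eq_factorial_mul_choose] at h1
  have h2 : 0 < k.factorial := Nat.factorial_pos k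
  have h3 : n ^ k * k.factorial ≤ (k ^ k * n.choose k) * k.factorial := by
    calc n ^ k * k.factorial ≤ k ^ k * (k.factorial * n.choose k) := h1
      _ = (k ^ k * n.choose k) * k.factorial := by ring
  exact Nat.le_of_mul_le_mul_right h3 h2

theorem step_dim (d : ℕ) (hd : 1 ≤ d)
    (h : ∃ C : ℝ, 0 < C ∧ ∀ n m : ℕ, 1 ≤ m → m ≤ n.choose (d + 1) →
      (fval d (d + 1) 0 m n : ℝ) ≤
        C * (max 1 ((m : ℝ) / n) + (m : ℝ) ^ 3 / (n : ℝ) ^ (2 * d + 2))) :
    ∃ C : ℝ, 0 < C ∧ ∀ n m : ℕ, 1 ≤ m → m ≤ n.choose (d + 2) →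
      (fval (d + 1) (d + 2) 0 m n : ℝ) ≤
        C * (max 1 ((m : ℝ) / n) + (m : ℝ) ^ 3 / (n : ℝ) ^ (2 * d + 4)) := by
  obtain ⟨C0, hC0, h0⟩ := h
  obtain ⟨C1, hC1, h1⟩ := Pool.Agent.H9.SC.two_sided (d + 1) (d + 2) 0 (by omega) (by omega) (by omega)
  set B : ℝ := 4 * (2 * ((d : ℝ) + 1)) ^ (d + 1) with hB
  have hB0 : 0 < B := by positivity
  set K : ℝ := 5 * C0 + 4 + C0 * (64 * 2 ^ (2 * d + 2)) with hK
  have hK0 : 0 < K := by positivity
  refine ⟨C1 + (4 : ℝ) ^ d + B ^ 2 + K, by positivity, ?_⟩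
  intro n m hm1 hm
  have hn : d + 2 ≤ n := by
    by_contra hlt
    rw [Nat.choose_eq_zero_of_lt (by omega)] at hm
    omega
  have hn0 : (0 : ℝ) < n := by
    have : 0 < n := by omega
    exact_mod_cast this
  have hm0 : (0 : ℝ) < m := by exact_mod_cast hm1
  have hmax : (1 : ℝ) ≤ max 1 ((m : ℝ) / n) := le_max_left _ _
  have hmax2 : (m : ℝ) / n ≤ max 1 ((m : ℝ) / n) := le_max_right _ _
  set M : ℝ := max 1 ((m : ℝ) / n) with hM
  set R : ℝ := (m : ℝ) ^ 3 / (n : ℝ) ^ (2 * d + 4) with hR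
  have hR0 : 0 < R := by positivity
  have hM0 : 0 < M := by linarith
  -- a general closing step
  have close : ∀ F a b : ℝ, F ≤ a * M + b * R → a ≤ C1 + (4 : ℝ) ^ d + B ^ 2 + K →
      b ≤ C1 + (4 : ℝ) ^ d + B ^ 2 + K → F ≤ (C1 + (4 : ℝ) ^ d + B ^ 2 + K) * (M + R) := by
    intro F a b hF ha hb
    have e1 := mul_le_mul_of_nonneg_right ha hM0.le
    have e2 := mul_le_mul_of_nonneg_right hb hR0.le
    calc F ≤ a * M + b * R := hF
      _ ≤ (C1 + (4 : ℝ) ^ d + B ^ 2 + K) * M + (C1 + (4 : ℝ) ^ d + B ^ 2 + K) * R := by linarith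
      _ = _ := by ring
  have h4d : (0 : ℝ) < 4 ^ d := by positivity
  have hB2 : (0 : ℝ) < B ^ 2 := by positivity
  by_cases hi : m ≤ n ^ (d + 1)
  · -- case (i)
    have h2 := (h1 n m hm1 hm).2.2 (by omega)
    have h3 : (m : ℝ) / (n : ℝ) ^ (d + 1 - 0) ≤ 1 := by
      rw [Nat.sub_zero, div_le_one (by positivity)]
      exact_mod_cast hi
    rw [max_eq_left h3, Real.one_rpow, mul_one] at h2
    refine close _ C1 0 (by linarith) (by linarith) (by linarith)
  · -- case (ii)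
    have hi' : n ^ (d + 1) < m := by omega
    obtain ⟨n2, hn2⟩ : ∃ n2, n2 = n / 2 := ⟨_, rfl⟩
    obtain ⟨n1, hn1⟩ : ∃ n1, n1 = n - n2 := ⟨_, rfl⟩
    obtain ⟨m1, hm1'⟩ : ∃ m1, m1 = m / n2 + 1 := ⟨_, rfl⟩
    have hn2pos : 0 < n2 := by omega
    have hn12 : n1 + n2 = n := by omega
    have hn21 : n2 ≤ n1 := by omega
    have h3n2 : n ≤ 3 * n2 := by omega
    have h2n1 : n ≤ 2 * n1 := by omega
    have hmm : m ≤ m1 * n2 := by
      rw [hm1']
      have := Nat.lt_div_mul_add (a := m) hn2pos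
      nlinarith
    have hn2r : (0 : ℝ) < n2 := by exact_mod_cast hn2pos
    have hn1r : (0 : ℝ) < n1 := by
      have : 0 < n1 := by omega
      exact_mod_cast this
    have h3n2r : (n : ℝ) ≤ 3 * n2 := by exact_mod_cast h3n2
    have h2n1r : (n : ℝ) ≤ 2 * n1 := by exact_mod_cast h2n1
    have hn21r : (n2 : ℝ) ≤ n1 := by exact_mod_cast hn21
    have hn2nr : (n2 : ℝ) ≤ n := by
      have : n2 ≤ n := by omega
      exact_mod_cast this
    have hn2m : (n : ℝ) ^ 2 ≤ m := by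
      have e1 : n ^ 2 ≤ n ^ (d + 1) := Nat.pow_le_pow_right (by omega) (by omega)
      have e2 : n ^ 2 ≤ m := by omega
      exact_mod_cast e2
    have hnm : (n : ℝ) ≤ m / n := by
      rw [le_div_iff₀ hn0]
      nlinarith
    have h1n : (1 : ℝ) ≤ n := by
      have : 1 ≤ n := by omega
      exact_mod_cast this
    have hm1r : (m1 : ℝ) ≤ 4 * (m / n) := by
      have e1 : (m1 : ℝ) ≤ m / n2 + 1 := by
        rw [hm1']
        push_cast
        have := Nat.cast_div_le (α := ℝ) (m := m) (n := n2)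
        linarith
      have e2 : (m : ℝ) / n2 ≤ 3 * (m / n) := by
        rw [div_le_iff₀ hn2r]
        have e3 : 3 * ((m : ℝ) / n) * n2 = (m / n) * (3 * n2) := by ring
        rw [e3]
        have e4 : (m : ℝ) = (m / n) * n := by field_simp
        have e5 : (m / n : ℝ) * n ≤ (m / n) * (3 * n2) :=
          mul_le_mul_of_nonneg_left h3n2r (by positivity)
        linarith
      linarith
    have hm1pos : 1 ≤ m1 := by rw [hm1']; exact Nat.le_add_left 1 _
    have hm1r0 : (0 : ℝ) < m1 := by exact_mod_cast hm1pos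
    by_cases hc : m1 ≤ n1.choose (d + 1)
    · -- case (iia)
      obtain ⟨G, hV, hE, hT⟩ := exists_of_fval (d := d) (r := d + 1) (k := 0) (m := m1) (n := n1)
        hd le_rfl hc
      obtain ⟨G', hV', hE', hT'⟩ := exists_cone d n1 n2 m1 (fval d (d + 1) 0 m1 n1) m hd G hV hE hT hmm
      have h5 := h0 n1 m1 hm1pos hc
      have h6 : fval (d + 1) (d + 2) 0 m n ≤ n2 * fval d (d + 1) 0 m1 n1 + m1 :=
        fval_le G' (hV'.trans hn12) hE' hT'
      have h7 : (fval (d + 1) (d + 2) 0 m n : ℝ) ≤ n2 * (fval d (d + 1) 0 m1 n1 : ℝ) + m1 := by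
        exact_mod_cast h6
      have h8 : max 1 ((m1 : ℝ) / n1) ≤ 1 + m1 / n1 := by
        apply max_le
        · have : (0 : ℝ) ≤ m1 / n1 := by positivity
          linarith
        · linarith
      have h9 : (n2 : ℝ) * (m1 / n1) ≤ m1 := by
        have e1 : (n2 : ℝ) * (m1 / n1) = m1 * (n2 / n1) := by ring
        have e2 : (n2 : ℝ) / n1 ≤ 1 := by rw [div_le_one hn1r]; exact hn21r
        rw [e1]
        nlinarith
      have h10 : (n2 : ℝ) * ((m1 : ℝ) ^ 3 / (n1 : ℝ) ^ (2 * d + 2)) ≤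
          (64 * 2 ^ (2 * d + 2)) * R := by
        have e1 : (m1 : ℝ) ^ 3 ≤ (4 * (m / n)) ^ 3 := pow_le_pow_left₀ hm1r0.le hm1r 3
        have e2 : ((n : ℝ) / 2) ^ (2 * d + 2) ≤ (n1 : ℝ) ^ (2 * d + 2) :=
          pow_le_pow_left₀ (by positivity) (by linarith) _
        have e3 : (m1 : ℝ) ^ 3 / (n1 : ℝ) ^ (2 * d + 2) ≤
            (4 * (m / n)) ^ 3 / ((n : ℝ) / 2) ^ (2 * d + 2) :=
          div_le_div₀ (by positivity) e1 (by positivity) e2
        have e4 : (n2 : ℝ) * ((m1 : ℝ) ^ 3 / (n1 : ℝ) ^ (2 * d + 2)) ≤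
            n * ((4 * (m / n)) ^ 3 / ((n : ℝ) / 2) ^ (2 * d + 2)) :=
          mul_le_mul hn2nr e3 (by positivity) hn0.le
        refine e4.trans (le_of_eq ?_)
        rw [hR, div_pow, mul_pow, div_pow]
        have e5 : (n : ℝ) ^ (2 * d + 4) = n ^ (2 * d + 2) * n ^ 2 := by
          rw [← pow_add]
        rw [e5]
        field_simp
        ring
      have h11 : (n2 : ℝ) * (fval d (d + 1) 0 m1 n1 : ℝ) ≤
          C0 * (n2 + m1 + (64 * 2 ^ (2 * d + 2)) * R) := by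
        have e1 : (n2 : ℝ) * (fval d (d + 1) 0 m1 n1 : ℝ) ≤
            n2 * (C0 * (max 1 ((m1 : ℝ) / n1) + (m1 : ℝ) ^ 3 / (n1 : ℝ) ^ (2 * d + 2))) :=
          mul_le_mul_of_nonneg_left h5 hn2r.le
        have e2 : (n2 : ℝ) * (C0 * (max 1 ((m1 : ℝ) / n1) + (m1 : ℝ) ^ 3 / (n1 : ℝ) ^ (2 * d + 2)))
            = C0 * (n2 * max 1 ((m1 : ℝ) / n1) +
                n2 * ((m1 : ℝ) ^ 3 / (n1 : ℝ) ^ (2 * d + 2))) := by ring
        rw [e2] at e1
        refine e1.trans (mul_le_mul_of_nonneg_left ?_ hC0.le)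
        have e3 : (n2 : ℝ) * max 1 ((m1 : ℝ) / n1) ≤ n2 * (1 + m1 / n1) :=
          mul_le_mul_of_nonneg_left h8 hn2r.le
        have e4 : (n2 : ℝ) * (1 + m1 / n1) = n2 + n2 * (m1 / n1) := by ring
        linarith
      have h12 : C0 * ((n2 : ℝ) + m1 + (64 * 2 ^ (2 * d + 2)) * R) ≤
          C0 * (5 * (m / n) + (64 * 2 ^ (2 * d + 2)) * R) := by
        apply mul_le_mul_of_nonneg_left _ hC0.le
        linarith
      have h13 : (fval (d + 1) (d + 2) 0 m n : ℝ) ≤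
          (5 * C0 + 4) * (m / n) + (C0 * (64 * 2 ^ (2 * d + 2))) * R := by
        calc (fval (d + 1) (d + 2) 0 m n : ℝ) ≤ n2 * (fval d (d + 1) 0 m1 n1 : ℝ) + m1 := h7
          _ ≤ C0 * (5 * (m / n) + (64 * 2 ^ (2 * d + 2)) * R) + 4 * (m / n) := by linarith
          _ = _ := by ring
      have h14 : (5 * C0 + 4) * ((m : ℝ) / n) ≤ (5 * C0 + 4) * M :=
        mul_le_mul_of_nonneg_left hmax2 (by positivity)
      have h15 : (0 : ℝ) < C0 * (64 * 2 ^ (2 * d + 2)) := by positivity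
      refine close _ (5 * C0 + 4) (C0 * (64 * 2 ^ (2 * d + 2))) (by linarith) ?_ ?_
      · rw [hK]; linarith
      · rw [hK]; linarith
    · -- case (iib)
      have hc' : n1.choose (d + 1) < m1 := by omega
      have hfm : (fval (d + 1) (d + 2) 0 m n : ℝ) ≤ m := by
        exact_mod_cast fval_le_card (d := d + 1) (r := d + 2) (k := 0) (by omega) (by omega) hm
      by_cases hs : n1 < d + 1
      · have e1 : m ≤ 4 ^ d := by
          calc m ≤ n.choose (d + 2) := hm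
            _ ≤ 2 ^ n := Nat.choose_le_two_pow n (d + 2)
            _ ≤ 2 ^ (2 * d) := Nat.pow_le_pow_right (by norm_num) (by omega)
            _ = 4 ^ d := by rw [pow_mul]; norm_num
        have e2 : (m : ℝ) ≤ 4 ^ d := by exact_mod_cast e1
        have e3 : (4 : ℝ) ^ d ≤ 4 ^ d * M := by nlinarith
        refine close _ (4 ^ d) 0 (by linarith) (by linarith) (by linarith)
      · have e1 := Stp_pow_le n1 (d + 1) (by omega)
        have e2 : n1 ^ (d + 1) ≤ (d + 1) ^ (d + 1) * m1 :=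
          e1.trans (Nat.mul_le_mul_left _ hc'.le)
        have e3 : (n1 : ℝ) ^ (d + 1) ≤ ((d : ℝ) + 1) ^ (d + 1) * m1 := by exact_mod_cast e2
        have e4 : (n : ℝ) ^ (d + 1) ≤ 2 ^ (d + 1) * (n1 : ℝ) ^ (d + 1) := by
          rw [← mul_pow]
          exact pow_le_pow_left₀ hn0.le h2n1r _
        have e5 : (n : ℝ) ^ (d + 1) ≤ 2 ^ (d + 1) * (((d : ℝ) + 1) ^ (d + 1) * (4 * (m / n))) := by
          refine e4.trans (mul_le_mul_of_nonneg_left (e3.trans ?_) (by positivity))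
          exact mul_le_mul_of_nonneg_left hm1r (by positivity)
        have e6 : (n : ℝ) ^ (d + 2) ≤ B * m := by
          have e7 : (n : ℝ) ^ (d + 2) = n ^ (d + 1) * n := by rw [pow_succ]
          have e8 : 2 ^ (d + 1) * (((d : ℝ) + 1) ^ (d + 1) * (4 * (m / n))) * n = B * m := by
            rw [hB, mul_pow]
            field_simp
          rw [e7, ← e8]
          exact mul_le_mul_of_nonneg_right e5 hn0.le
        have e7 : (1 : ℝ) ≤ B * m / n ^ (d + 2) := by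
          rw [le_div_iff₀ (by positivity)]
          linarith
        have e8 : (1 : ℝ) ≤ (B * m / n ^ (d + 2)) ^ 2 := one_le_pow₀ e7
        have e9 : (m : ℝ) * (B * m / n ^ (d + 2)) ^ 2 = B ^ 2 * R := by
          rw [hR, div_pow, ← pow_mul]
          have e10 : (d + 2) * 2 = 2 * d + 4 := by ring
          rw [e10]
          ring
        have e10 : (m : ℝ) ≤ B ^ 2 * R := by
          rw [← e9]
          nlinarith
        refine close _ 0 (B ^ 2) (by linarith) (by linarith) (by linarith)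

end Pool.Agent.H74.GB
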