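import Mathlib
import Pool.Agent.H74.GB.Bas
import Pool.Agent.H74.GB.Stp

/-!
The upper bound in the second selection lemma, all dimensions at least three.
-/

namespace Pool.Agent.H74.GB

open Pool.Agent.H68

theorem selUpper (d : ℕ) (hd : 3 ≤ d) :
    ∃ C : ℝ, 0 < C ∧ ∀ n m : ℕ, 1 ≤ m → m ≤ n.choose (d + 1) →
      (fval d (d + 1) 0 m n : ℝ) ≤
        C * (max 1 ((m : ℝ) / n) + (m : ℝ) ^ 3 / (n : ℝ) ^ (2 * d + 2)) := by
  induction d, hd using Nat.le_induction with
  | base => exact base_three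
  | succ d hd ih => exact step_dim d (by omega) ih

end Pool.Agent.H74.GB
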